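import Pool.Agent.Lib.MP_270b6b_co.PT.Spec

set_option autoImplicit false

open Finset

namespace Pool.Agent.Lib.MP270b6b.PT

theorem specBND (hSWP : SpecSWP) : SpecBND := by
  intro V _ X A a ha hB
  obtain ⟨T, -, hTA, hTc, -, hT⟩ :=
    hSWP V X A ∅ (a + 1) (Finset.empty_subset _) (by simp) ha
  have hng := hB T hTA hTc
  have hex : ∃ x ∈ T, dg X T x ≤ 1 := by
    by_contra h
    push Not at h
    exact hng (fun x hx => h x hx)
  obtain ⟨x, hxT, hx⟩ := hex
  refine ⟨T.erase x, (Finset.erase_subset _ _).trans hTA, ?_, ?_⟩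
  · rw [Finset.card_erase_of_mem hxT, hTc]
    rfl
  · intro y hy
    rw [Finset.mem_sdiff] at hy
    exact hT x hxT (Finset.notMem_empty _) hx y hy.1 hy.2

end Pool.Agent.Lib.MP270b6b.PT
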