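import Pool.Agent.Lib.MP_270b6b_co.PT.Spec

/-!
# CFL: `D` a tree, the long path
-/

set_option autoImplicit false
set_option linter.unusedSectionVars false

open Finset

namespace Pool.Agent.Lib.MP270b6b.PT

namespace CFLM

variable {V : Type} [DecidableEq V] {X : SimpleGraph V}

/-- degrees in an almost complete set -/
lemma deg_low {R : Finset V} {k e : ℕ} (hk : 1 ≤ k) (hR : R.card = k)
    (hS : k * (k - 1) ≤ S X R + 2 * e) {x : V} (hx : x ∈ R) : k - 1 ≤ dg X R x + e := by
  have h1 := S_erase (X := X) hx
  have h2 := S_le (X := X) (R.erase x)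
  have h3 : (R.erase x).card = k - 1 := by rw [card_erase_of_mem hx, hR]
  rw [h3] at h2
  obtain ⟨j, rfl⟩ : ∃ j, k = j + 1 := ⟨k - 1, by omega⟩
  simp only [Nat.add_sub_cancel] at *
  nlinarith

lemma complete_of {R : Finset V} {k : ℕ} (hR : R.card = k) {x : V} (hx : x ∈ R)
    (hd : k - 1 ≤ dg X R x) {z : V} (hz : z ∈ R) (hzx : z ≠ x) : X.Adj x z := by
  classical
  have h3 : (R.erase x).card = k - 1 := by rw [card_erase_of_mem hx, hR]
  have h1 : (R.erase x).filter (fun y => X.Adj x y) = R.erase x := by
    refine eq_of_subset_of_card_le (filter_subset _ _) ?_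
    rw [h3]
    rw [← dg_erase_self] at hd
    exact hd
  have h2 : z ∈ (R.erase x).filter (fun y => X.Adj x y) := by
    rw [h1]
    exact mem_erase.2 ⟨hzx, hz⟩
  exact (mem_filter.1 h2).2

end CFLM

open CFLM in
theorem specCFL : SpecCFL := by
  classical
  intro V _ _ X R D T k hk hR hD hdis huniv h1 hbig hSD hT hTc hsum hST hdeg
  have hTD : T.card ≤ k := hD ▸ card_le_card hT
  have hRD : ∀ x, x ∈ R → x ∉ D := fun x hx hx' => disjoint_left.1 hdis hx hx'
  have hall : ∀ x, x ∈ R ∨ x ∈ D := fun x => by
    rw [← mem_union, huniv]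
    exact mem_univ x
  -- the zeros in `T`
  have hzero : (T.filter fun u => dg X R u = 0).card + 2 = T.card := by
    have e1 := card_filter_add_card_filter_not (s := T) (fun u => dg X R u = 0)
    have e2 : ∑ u ∈ T, dg X R u = (T.filter fun u => ¬ dg X R u = 0).card := by
      rw [card_filter]
      refine sum_congr rfl fun u hu => ?_
      have := h1 u (hT hu)
      split_ifs with h
      · omega
      · omega
    omega
  have hsub : (T.filter fun u => dg X R u = 0) ⊆ (D.filter fun u => dg X R u = 0) :=
    filter_subset_filter _ hT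
  have hσ := card_le_card hsub
  have hSR := S_le (X := X) R
  rw [hR] at hSR
  have hkk : k * (k - 1) + k = k * k := by
    obtain ⟨j, rfl⟩ : ∃ j, k = j + 1 := ⟨k - 1, by omega⟩
    simp only [Nat.add_sub_cancel]
    ring
  have hRpos : ∀ x ∈ R, 1 ≤ dg X R x := by
    intro x hx
    have := deg_low (X := X) (e := 1) (by omega) hR (by omega) hx
    omega
  have hTpos : ∀ u ∈ T, 1 ≤ dg X T u := by
    intro u hu
    have e1 := hdeg u hu
    have e2 := h1 u (hT hu)
    omega
  by_cases hcase : ∀ u ∈ D, 1 ≤ dg X D u
  · refine ⟨D, hD, hcase, fun x hx => ?_⟩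
    have hx' : x ∈ R := by
      rcases hall x with h | h
      · exact h
      · exact absurd h (mem_compl.1 hx)
    have hsub2 : R ⊆ Dᶜ := fun z hz => mem_compl.2 (hRD z hz)
    exact (hRpos x hx').trans (dg_mono hsub2 x)
  · push Not at hcase
    obtain ⟨y, hyD, hy0⟩ := hcase
    have hy0 : dg X D y = 0 := by omega
    have hyT : y ∉ T := by
      intro h
      have e1 := hTpos y h
      have e2 := dg_mono (X := X) hT y
      omega
    have hTe : T = D.erase y := by
      refine eq_of_subset_of_card_le (fun u hu => mem_erase.2 ⟨?_, hT hu⟩) ?_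
      · rintro rfl
        exact hyT hu
      · rw [card_erase_of_mem hyD, hD]
        omega
    have hTk : T.card = k - 1 := by rw [hTe, card_erase_of_mem hyD, hD]
    have hDT : D = insert y T := by rw [hTe, insert_erase hyD]
    have hyT0 : dg X T y = 0 := by
      have := dg_mono (X := X) hT y
      omega
    have hSDT : S X D = S X T := by
      rw [hDT, S_insert hyT, hyT0, Nat.mul_zero, Nat.add_zero]
    have hRfull : k * (k - 1) ≤ S X R + 2 * 0 := by omega
    have hcomp : ∀ x ∈ R, ∀ z ∈ R, z ≠ x → X.Adj x z := by
      intro x hx z hz hzx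
      have := deg_low (X := X) (e := 0) (by omega) hR hRfull hx
      exact complete_of hR hx (by omega) hz hzx
    have hσe : (D.filter fun u => dg X R u = 0).card ≤ (T.filter fun u => dg X R u = 0).card := by
      omega
    have hfe := eq_of_subset_of_card_le hsub hσe
    have hyR : 1 ≤ dg X R y := by
      by_contra h
      have h0 : dg X R y = 0 := by omega
      have h2 : y ∈ D.filter fun u => dg X R u = 0 := mem_filter.2 ⟨hyD, h0⟩
      rw [← hfe] at h2
      exact hyT (mem_filter.1 h2).1
    obtain ⟨c, hcR, hyc⟩ := dg_pos.1 hyR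
    have hcy : c ≠ y := fun h => hRD c hcR (h ▸ hyD)
    have hcT : c ∉ T := fun h => hRD c hcR (hT h)
    by_cases hB : ∃ z ∈ R, z ≠ c ∧ 1 ≤ dg X T z
    · obtain ⟨z, hzR, hzc, hzT⟩ := hB
      have hzT' : z ∉ T := fun h => hRD z hzR (hT h)
      refine ⟨insert z T, by rw [card_insert_of_notMem hzT', hTk]; omega, fun x hx => ?_,
        fun x hx => ?_⟩
      · rcases mem_insert.1 hx with rfl | hx
        · exact hzT.trans (dg_mono (subset_insert _ _) _)
        · exact (hTpos x hx).trans (dg_mono (subset_insert _ _) _)
      · rw [mem_compl, mem_insert, not_or] at hx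
        have hmem : ∀ w ∈ R, w ≠ z → w ∈ (insert z T)ᶜ := by
          intro w hw hwz
          rw [mem_compl, mem_insert, not_or]
          exact ⟨hwz, fun h => hRD w hw (hT h)⟩
        rcases hall x with h | h
        · have hcard : 1 < (R.erase z).card := by
            rw [card_erase_of_mem hzR, hR]
            omega
          obtain ⟨w, hw, hwx⟩ := exists_mem_ne hcard x
          rw [mem_erase] at hw
          exact dg_pos.2 ⟨w, hmem w hw.2 hw.1, hcomp x h w hw.2 hwx⟩
        · rw [hDT, mem_insert] at h
          rcases h with rfl | h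
          · exact dg_pos.2 ⟨c, hmem c hcR (Ne.symm hzc), hyc⟩
          · exact absurd h hx.2
    · push Not at hB
      have hcn : ∀ x ∈ T, 1 ≤ dg X R x → X.Adj x c := by
        intro x hx hd
        obtain ⟨w, hw, hxw⟩ := dg_pos.1 hd
        by_cases hwc : w = c
        · exact hwc ▸ hxw
        · have e1 := hB w hw hwc
          have e2 : 1 ≤ dg X T w := dg_pos.2 ⟨x, hx, hxw.symm⟩
          omega
      obtain ⟨u, huT, huR⟩ : ∃ u ∈ T, 1 ≤ dg X R u := by
        by_contra hcon
        push Not at hcon
        have : ∑ u ∈ T, dg X R u = 0 := sum_eq_zero fun u hu => by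
          have := hcon u hu
          omega
        omega
      have huT1 : dg X T u = 1 := by
        have e1 := hdeg u huT
        have e2 := h1 u (hT huT)
        omega
      obtain ⟨u', hu'⟩ := card_eq_one.1 (show (T.filter fun y => X.Adj u y).card = 1 from huT1)
      have hu'1 : u' ∈ T ∧ X.Adj u u' := by
        have : u' ∈ T.filter fun y => X.Adj u y := by
          rw [hu']
          exact mem_singleton_self _
        exact mem_filter.1 this
      have huni : ∀ w ∈ T, X.Adj u w → w = u' := by
        intro w hw hwu
        have : w ∈ T.filter fun y => X.Adj u y := mem_filter.2 ⟨hw, hwu⟩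
        rw [hu'] at this
        exact mem_singleton.1 this
      have huu' : u' ≠ u := hu'1.2.ne'
      obtain ⟨z, hzR, hzc⟩ : ∃ z ∈ R, z ≠ c := exists_mem_ne (by rw [hR]; omega) c
      have hzT : z ∉ T := fun h => hRD z hzR (hT h)
      have hzy : z ≠ y := fun h => hRD z hzR (h ▸ hyD)
      have hmemV : ∀ x, x ∈ insert c (insert z (insert y ((T.erase u).erase u'))) ↔
          x = c ∨ x = z ∨ x = y ∨ (x ≠ u' ∧ x ≠ u ∧ x ∈ T) := by
        intro x
        simp only [mem_insert, mem_erase]
      refine ⟨insert c (insert z (insert y ((T.erase u).erase u'))), ?_, fun x hx => ?_,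
        fun x hx => ?_⟩
      · rw [card_insert_of_notMem, card_insert_of_notMem, card_insert_of_notMem,
          card_erase_of_mem, card_erase_of_mem huT, hTk]
        · omega
        · exact mem_erase.2 ⟨huu', hu'1.1⟩
        · simp only [mem_erase]
          exact fun h => hyT h.2.2
        · simp only [mem_insert, mem_erase]
          rintro (h | h)
          · exact hzy h
          · exact hzT h.2.2
        · simp only [mem_insert, mem_erase]
          rintro (h | h | h)
          · exact hzc h.symm
          · exact hcy h
          · exact hcT h.2.2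
      · have mc : c ∈ insert c (insert z (insert y ((T.erase u).erase u'))) := mem_insert_self _ _
        have my : y ∈ insert c (insert z (insert y ((T.erase u).erase u'))) :=
          (hmemV y).2 (Or.inr (Or.inr (Or.inl rfl)))
        rcases (hmemV x).1 hx with rfl | rfl | rfl | ⟨hx1, hx2, hx3⟩
        · exact dg_pos.2 ⟨y, my, hyc.symm⟩
        · exact dg_pos.2 ⟨c, mc, hcomp x hzR c hcR (Ne.symm hzc)⟩
        · exact dg_pos.2 ⟨c, mc, hyc⟩
        · by_cases hxR : 1 ≤ dg X R x
          · exact dg_pos.2 ⟨c, mc, hcn x hx3 hxR⟩
          · have e1 := hdeg x hx3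
            have e2 : 2 ≤ dg X T x := by omega
            obtain ⟨a, ha, b, hb, hab, hxa, hxb⟩ := exists_two e2
            have hnu : ∀ w ∈ T, X.Adj x w → w ≠ u := by
              rintro w hw hxw rfl
              exact hx1 (huni x hx3 hxw.symm)
            by_cases hau : a = u'
            · have hbu : b ≠ u' := fun h => hab (hau.trans h.symm)
              exact dg_pos.2 ⟨b, (hmemV b).2 (Or.inr (Or.inr (Or.inr
                ⟨hbu, hnu b hb hxb, hb⟩))), hxb⟩
            · exact dg_pos.2 ⟨a, (hmemV a).2 (Or.inr (Or.inr (Or.inr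
                ⟨hau, hnu a ha hxa, ha⟩))), hxa⟩
      · have huc : u ∈ (insert c (insert z (insert y ((T.erase u).erase u'))))ᶜ := by
          rw [mem_compl, hmemV]
          rintro (h | h | h | h)
          · exact hcT (h ▸ huT)
          · exact hzT (h ▸ huT)
          · exact hyT (h ▸ huT)
          · exact h.2.1 rfl
        have hu'c : u' ∈ (insert c (insert z (insert y ((T.erase u).erase u'))))ᶜ := by
          rw [mem_compl, hmemV]
          rintro (h | h | h | h)
          · exact hcT (h ▸ hu'1.1)
          · exact hzT (h ▸ hu'1.1)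
          · exact hyT (h ▸ hu'1.1)
          · exact h.1 rfl
        have hx' := hx
        rw [mem_compl, hmemV] at hx'
        push Not at hx'
        obtain ⟨x1, x2, x3, x4⟩ := hx'
        rcases hall x with h | h
        · have hcard : 1 < ((R.erase c).erase z).card := by
            rw [card_erase_of_mem (mem_erase.2 ⟨hzc, hzR⟩), card_erase_of_mem hcR, hR]
            omega
          obtain ⟨w, hw, hwx⟩ := exists_mem_ne hcard x
          rw [mem_erase, mem_erase] at hw
          refine dg_pos.2 ⟨w, ?_, hcomp x h w hw.2.2 hwx⟩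
          rw [mem_compl, hmemV]
          rintro (h' | h' | h' | h')
          · exact hw.2.1 h'
          · exact hw.1 h'
          · exact hRD w hw.2.2 (h' ▸ hyD)
          · exact hRD w hw.2.2 (hT h'.2.2)
        · rw [hDT, mem_insert] at h
          rcases h with h | h
          · exact absurd h x3
          · by_cases e1 : x = u'
            · subst e1
              exact dg_pos.2 ⟨u, huc, hu'1.2.symm⟩
            · by_cases e2 : x = u
              · subst e2
                exact dg_pos.2 ⟨u', hu'c, hu'1.2⟩
              · exact absurd h (x4 e1 e2)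

end Pool.Agent.Lib.MP270b6b.PT
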