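import Pool.Agent.Lib.MP_270b6b_co.PT.Spec

/-!
# MP_270b6b_co: module CFO

The case in which `D` has no nonempty good subset.
-/

set_option autoImplicit false

open Finset

namespace Pool.Agent.Lib.MP270b6b.PT

namespace CFOM

/-- weights at most one: the sum and the number of zeros -/
theorem sum_add_zeros {V : Type} (w : V → ℕ) (A : Finset V) (h : ∀ u ∈ A, w u ≤ 1) :
    ∑ u ∈ A, w u + (A.filter fun u => w u = 0).card = A.card := by
  rw [card_filter, ← sum_add_distrib, card_eq_sum_ones]
  refine sum_congr rfl fun u hu => ?_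
  have h1 := h u hu
  by_cases h0 : w u = 0
  · rw [if_pos h0]
    omega
  · rw [if_neg h0]
    omega

end CFOM

open CFOM in
theorem specCFO (hCOR : SpecCOR) (hEAR : SpecEAR) (hMIN : SpecMIN) (hCFL : SpecCFL) :
    SpecCFO := by
  intro V _ _ X R D k hk hR hD hRD hun hw hSS hgood
  obtain ⟨w, hwdef⟩ : ∃ w : V → ℕ, w = fun u => dg X R u := ⟨_, rfl⟩
  have hwu : ∀ u, w u = dg X R u := fun u => by rw [hwdef]
  obtain ⟨hc1, hc2⟩ := hCOR V X
  have hDne : D.Nonempty := by
    rw [← card_pos]
    omega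
  have hSD := hc2 D hDne hgood
  rw [hD] at hSD
  have hSR := S_le (X := X) R
  rw [hR] at hSR
  have hkk : k * (k - 1) + k = k * k := by
    obtain ⟨m, rfl⟩ : ∃ m, k = m + 1 := ⟨k - 1, by omega⟩
    rw [Nat.add_sub_cancel]
    ring
  have hwD : ∑ u ∈ D, w u + (D.filter fun u => dg X R u = 0).card = k := by
    have h1 := sum_add_zeros w D (fun u hu => by rw [hwu]; exact hw u hu)
    simp only [hwu] at h1 ⊢
    rw [hD] at h1
    exact h1
  -- a nonempty weighted good subset
  obtain ⟨B, hBD, hBg, hB⟩ := hc1 w D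
  have hBne : B.Nonempty := by
    rw [nonempty_iff_ne_empty]
    intro h0
    rw [h0, S_empty, sum_empty, card_empty, hD] at hB
    omega
  classical
  obtain ⟨T, hT, hmin⟩ := exists_min_image
    (D.powerset.filter fun B => B.Nonempty ∧ WGood X w B) card
    ⟨B, mem_filter.2 ⟨mem_powerset.2 hBD, hBne, hBg⟩⟩
  rw [mem_filter, mem_powerset] at hT
  obtain ⟨hTD, hTne, hTg⟩ := hT
  have hTw : ∀ u ∈ T, w u ≤ 1 := fun u hu => by rw [hwu]; exact hw u (hTD hu)
  obtain ⟨hT1, hT2, hT3, hT4⟩ := hMIN V X w T hTne hTw hTg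
    (fun B hB h => hgood B (hB.trans hTD) h) (by
      intro B hB h
      by_contra hne
      have h1 := hmin B (mem_filter.2 ⟨mem_powerset.2 (hB.1.trans hTD),
        nonempty_iff_ne_empty.2 hne, h⟩)
      have h2 := card_lt_card hB
      omega)
  have hTz := sum_add_zeros w T hTw
  have hsub : (T.filter fun u => w u = 0).card ≤ (D.filter fun u => dg X R u = 0).card := by
    refine card_le_card ?_
    intro u hu
    rw [mem_filter] at hu
    rw [mem_filter]
    refine ⟨hTD hu.1, ?_⟩
    rw [← hwu]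
    exact hu.2
  have hsum : ∑ u ∈ T, dg X R u = 2 := by
    rw [← hT1]
    exact sum_congr rfl fun u _ => (hwu u).symm
  have hdeg : ∀ u ∈ T, dg X T u + dg X R u = 2 := fun u hu => by
    rw [← hwu]
    exact hT4 u hu
  have hdisj : Disjoint R T := Disjoint.mono_right hTD hRD
  by_cases ht : T.card + 2 ≤ k
  · left
    refine hEAR V X R T k hk hR hdisj hT3 ht (fun u hu => (hdeg u hu).ge) hsum ?_
    omega
  · right
    exact hCFL V X R D T k hk hR hD hRD hun hw hSS hSD hTD (by omega) hsum hT2 hdeg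

end Pool.Agent.Lib.MP270b6b.PT
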