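import Pool.Agent.Lib.MP_270b6b_co.PT.Spec

/-!
# COR: peeling
-/

set_option autoImplicit false

open Finset

namespace Pool.Agent.Lib.MP270b6b.PT

/-- COR -/
theorem specCOR : SpecCOR := by
  intro V _ X
  refine ⟨fun w A => ?_, fun A => ?_⟩
  · induction A using Finset.strongInduction with
    | H A ih =>
      by_cases hg : WGood X w A
      · exact ⟨A, Subset.rfl, hg, le_refl _⟩
      · unfold WGood at hg
        push Not at hg
        obtain ⟨x, hx, hlt⟩ := hg
        obtain ⟨B, hB, hBg, hle⟩ := ih (A.erase x) (erase_ssubset hx)
        refine ⟨B, hB.trans (erase_subset _ _), hBg, ?_⟩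
        have h1 := S_erase (X := X) hx
        have h2 : w x + ∑ y ∈ A.erase x, w y = ∑ y ∈ A, w y := add_sum_erase A w hx
        have h3 := card_erase_add_one hx
        omega
  · induction A using Finset.strongInduction with
    | H A ih =>
      intro hne hno
      have hng : ¬ Good X A := fun h => hne.ne_empty (hno A Subset.rfl h)
      unfold Good at hng
      push Not at hng
      obtain ⟨x, hx, hlt⟩ := hng
      have h1 := S_erase (X := X) hx
      have h3 := card_erase_add_one hx
      rcases (A.erase x).eq_empty_or_nonempty with h0 | h0
      · have h4 : dg X A x = 0 := by rw [← dg_erase_self, h0, dg_empty]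
        have h5 : S X (A.erase x) = 0 := by rw [h0, S_empty]
        have h6 : (A.erase x).card = 0 := by rw [h0, card_empty]
        omega
      · have h4 := ih _ (erase_ssubset hx) h0 (fun B hB => hno B (hB.trans (erase_subset _ _)))
        omega

end Pool.Agent.Lib.MP270b6b.PT
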