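import Pool.Agent.Lib.MP_270b6b_co.PT.Spec

/-!
# MP_270b6b_co, module DEL: deletion of vertices of small degree
-/

set_option autoImplicit false

open Finset

namespace Pool.Agent.Lib.MP270b6b.PT

namespace DELM

private theorem step {V : Type} [DecidableEq V] (X : SimpleGraph V) (A : Finset V) (y : ℕ)
    (hA : A.card = y + 2) : ∃ A' ⊆ A, A'.card = y + 1 ∧ y * S X A ≤ (y + 2) * S X A' := by
  have hne : A.Nonempty := card_pos.1 (by omega)
  obtain ⟨x, hx, h⟩ : ∃ x ∈ A, A.card * dg X A x ≤ S X A := by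
    refine exists_le_of_sum_le hne ?_
    rw [← mul_sum, sum_const, smul_eq_mul]
    exact le_rfl
  refine ⟨A.erase x, erase_subset _ _, by rw [card_erase_of_mem hx]; omega, ?_⟩
  have h1 := S_erase (X := X) hx
  rw [hA] at h
  nlinarith

end DELM

open DELM in
theorem specDEL : SpecDEL := by
  intro V _ X A k hA hk
  obtain ⟨m, rfl⟩ : ∃ m, k = m + 5 := ⟨k - 5, by omega⟩
  obtain ⟨A₁, h1, c1, e1⟩ := step X A (m + 3) hA
  obtain ⟨A₂, h2, c2, e2⟩ := step X A₁ (m + 2) c1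
  obtain ⟨A₃, h3, c3, e3⟩ := step X A₂ (m + 1) c2
  have s5 : m + 5 - 2 = m + 3 := by omega
  have s4 : m + 5 - 3 = m + 2 := by omega
  have s3 : m + 5 - 4 = m + 1 := by omega
  have s2 : m + 5 - 1 = m + 4 := by omega
  rw [s5, s4, s3, s2]
  have hA2 : (m + 3) * (m + 2) * S X A ≤ (m + 5) * (m + 4) * S X A₂ := by
    calc (m + 3) * (m + 2) * S X A = (m + 2) * ((m + 3) * S X A) := by ring
      _ ≤ (m + 2) * ((m + 3 + 2) * S X A₁) := Nat.mul_le_mul_left _ e1
      _ = (m + 5) * ((m + 2) * S X A₁) := by ring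
      _ ≤ (m + 5) * ((m + 2 + 2) * S X A₂) := Nat.mul_le_mul_left _ e2
      _ = _ := by ring
  refine ⟨⟨A₂, h2.trans h1, c2, hA2⟩, A₃, h3.trans (h2.trans h1), c3, ?_⟩
  refine Nat.le_of_mul_le_mul_left (c := m + 3) ?_ (by omega)
  calc (m + 3) * ((m + 2) * (m + 1) * S X A) = (m + 1) * ((m + 3) * (m + 2) * S X A) := by ring
    _ ≤ (m + 1) * ((m + 5) * (m + 4) * S X A₂) := Nat.mul_le_mul_left _ hA2
    _ = (m + 5) * (m + 4) * ((m + 1) * S X A₂) := by ring
    _ ≤ (m + 5) * (m + 4) * ((m + 1 + 2) * S X A₃) := Nat.mul_le_mul_left _ e3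
    _ = _ := by ring

end Pool.Agent.Lib.MP270b6b.PT
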