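import Pool.Agent.Lib.MP_270b6b_co.PT.Spec

/-! MP_270b6b_co, module DEN: the density bound (helper61). -/

set_option autoImplicit false

open Finset

namespace Pool.Agent.Lib.MP270b6b.PT

/-- **DEN**. -/
theorem specDEN (hBND : SpecBND) : SpecDEN := by
  intro V _ X A a ha
  obtain ⟨b, rfl⟩ : ∃ b, a = b + 2 := ⟨a - 2, by omega⟩
  rw [Nat.add_sub_cancel]
  induction A using Finset.strongInduction with
  | H A ih =>
    intro hA
    rcases Nat.lt_or_ge (b + 2) A.card with h | h
    · obtain ⟨A₁, hA₁, hc, h1⟩ := hBND V X A (b + 2) h hA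
      have h2 := S_le_of_le_one hA₁ h1
      have h3 : (A \ A₁).card + (b + 2) = A.card := by
        rw [← hc]
        exact card_sdiff_add_card_eq_card hA₁
      have hss : A \ A₁ ⊂ A := by
        refine Finset.ssubset_iff_subset_ne.2 ⟨sdiff_subset, fun h' => ?_⟩
        rw [h'] at h3
        omega
      have h4 := ih (A \ A₁) hss (fun B hB => hA B (hB.trans sdiff_subset))
      have h5 := S_le (X := X) A₁
      rw [hc] at h5
      set e := (A \ A₁).card with he
      have h6 : (b + 2) * (S X A₁ + (b + 2)) ≤ (b + 2) * ((b + 2) * (b + 2)) :=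
        Nat.mul_le_mul_left _ h5
      have h7 : (b + 2) * S X A ≤ (b + 2) * (S X A₁ + S X (A \ A₁) + 2 * e) :=
        Nat.mul_le_mul_left _ h2
      rw [← h3]
      nlinarith [h4, h6, h7]
    · have h5 := S_le (X := X) A
      set y := A.card with hy
      have h6 : (b + 2) * (S X A + y) ≤ (b + 2) * (y * y) := Nat.mul_le_mul_left _ h5
      have h7 : (b + 1) * y * y ≤ (b + 1) * y * (b + 2) := Nat.mul_le_mul_left _ h
      nlinarith [h6, h7]

end Pool.Agent.Lib.MP270b6b.PT
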