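import Mathlib

/-!
# MP_270b6b_co, graphs on `2n + 2` vertices: definitions and basic facts

`X` is (the complement of) a graph on a finite set.  All counts are in the natural numbers and
`S X A` is TWICE the number of edges inside `A`.
-/

set_option autoImplicit false
set_option linter.unusedSectionVars false

open Finset

namespace Pool.Agent.Lib.MP270b6b.PT

open Classical in
/-- the number of neighbours of `x` in `A` -/
noncomputable def dg {V : Type} (X : SimpleGraph V) (A : Finset V) (x : V) : ℕ :=
  (A.filter fun y => X.Adj x y).card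

/-- twice the number of edges inside `A` -/
noncomputable def S {V : Type} (X : SimpleGraph V) (A : Finset V) : ℕ := ∑ x ∈ A, dg X A x

/-- all degrees inside `A` are at least two (the empty set is good) -/
def Good {V : Type} (X : SimpleGraph V) (A : Finset V) : Prop := ∀ x ∈ A, 2 ≤ dg X A x

/-- all degrees inside `A` plus the weight are at least two -/
def WGood {V : Type} (X : SimpleGraph V) (w : V → ℕ) (A : Finset V) : Prop :=
  ∀ x ∈ A, 2 ≤ dg X A x + w x

variable {V : Type} [DecidableEq V] {X : SimpleGraph V}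

theorem dg_pos {A : Finset V} {x : V} : 1 ≤ dg X A x ↔ ∃ y ∈ A, X.Adj x y := by
  classical
  rw [dg, Nat.one_le_iff_ne_zero, ← Nat.pos_iff_ne_zero, card_pos]
  constructor
  · rintro ⟨y, hy⟩
    exact ⟨y, (mem_filter.1 hy).1, (mem_filter.1 hy).2⟩
  · rintro ⟨y, hy, h⟩
    exact ⟨y, mem_filter.2 ⟨hy, h⟩⟩

theorem dg_eq_zero {A : Finset V} {x : V} : dg X A x = 0 ↔ ∀ y ∈ A, ¬ X.Adj x y := by
  classical
  rw [dg, card_eq_zero, filter_eq_empty_iff]

/-- two different neighbours -/
theorem two_le_dg {A : Finset V} {x y z : V} (hy : y ∈ A) (hz : z ∈ A) (hyz : y ≠ z)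
    (h1 : X.Adj x y) (h2 : X.Adj x z) : 2 ≤ dg X A x := by
  classical
  have h3 : ({y, z} : Finset V) ⊆ A.filter fun y => X.Adj x y := by
    intro u hu
    rcases mem_insert.1 hu with rfl | hu
    · exact mem_filter.2 ⟨hy, h1⟩
    · rw [mem_singleton.1 hu]
      exact mem_filter.2 ⟨hz, h2⟩
  calc 2 = ({y, z} : Finset V).card := (card_pair hyz).symm
    _ ≤ _ := card_le_card h3

theorem exists_two {A : Finset V} {x : V} (h : 2 ≤ dg X A x) :
    ∃ y ∈ A, ∃ z ∈ A, y ≠ z ∧ X.Adj x y ∧ X.Adj x z := by
  classical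
  obtain ⟨y, hy, z, hz, hyz⟩ := one_lt_card.1 (show 1 < (A.filter fun y => X.Adj x y).card from h)
  exact ⟨y, (mem_filter.1 hy).1, z, (mem_filter.1 hz).1, hyz, (mem_filter.1 hy).2,
    (mem_filter.1 hz).2⟩

theorem dg_mono {A B : Finset V} (h : A ⊆ B) (x : V) : dg X A x ≤ dg X B x := by
  classical
  exact card_le_card (filter_subset_filter _ h)

theorem dg_union {A B : Finset V} (h : Disjoint A B) (x : V) :
    dg X (A ∪ B) x = dg X A x + dg X B x := by
  classical
  rw [dg, dg, dg, filter_union, card_union_of_disjoint (disjoint_filter_filter h)]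

theorem dg_empty (x : V) : dg X ∅ x = 0 := by simp [dg]

/-- the degree in `A` is the degree in `A.erase x` -/
theorem dg_erase_self (A : Finset V) (x : V) : dg X (A.erase x) x = dg X A x := by
  classical
  rw [dg, dg]
  congr 1
  ext y
  simp only [mem_filter, mem_erase]
  constructor
  · rintro ⟨⟨_, h1⟩, h2⟩
    exact ⟨h1, h2⟩
  · rintro ⟨h1, h2⟩
    exact ⟨⟨fun h => X.loopless.irrefl x (h ▸ h2), h1⟩, h2⟩

theorem dg_erase_adj {A : Finset V} {x y : V} (hx : x ∈ A) (h : X.Adj y x) :
    dg X (A.erase x) y + 1 = dg X A y := by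
  classical
  rw [dg, dg, filter_erase, card_erase_add_one]
  exact mem_filter.2 ⟨hx, h⟩

theorem dg_erase_not_adj {A : Finset V} {x y : V} (h : ¬ X.Adj y x) :
    dg X (A.erase x) y = dg X A y := by
  classical
  rw [dg, dg, filter_erase, erase_eq_of_notMem]
  exact fun hx => h (mem_filter.1 hx).2

theorem dg_le_erase {A : Finset V} (x y : V) : dg X A y ≤ dg X (A.erase x) y + 1 := by
  classical
  rw [dg, dg, filter_erase]
  have := pred_card_le_card_erase (s := A.filter fun z => X.Adj y z) (a := x)
  omega

theorem dg_insert_adj {A : Finset V} {x y : V} (hx : x ∉ A) (h : X.Adj y x) :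
    dg X (insert x A) y = dg X A y + 1 := by
  classical
  rw [dg, dg, filter_insert, if_pos h, card_insert_of_notMem]
  exact fun h' => hx (mem_filter.1 h').1

theorem dg_insert_not_adj {A : Finset V} {x y : V} (h : ¬ X.Adj y x) :
    dg X (insert x A) y = dg X A y := by
  classical
  rw [dg, dg, filter_insert, if_neg h]

theorem dg_insert_self (A : Finset V) (x : V) : dg X (insert x A) x = dg X A x :=
  dg_insert_not_adj (X.loopless.irrefl x)

theorem dg_lt {A : Finset V} {x : V} (hx : x ∈ A) : dg X A x + 1 ≤ A.card := by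
  classical
  rw [← dg_erase_self, ← card_erase_add_one hx]
  exact Nat.add_le_add_right (card_filter_le _ _) 1

theorem dg_le (A : Finset V) (x : V) : dg X A x ≤ A.card := by
  classical
  exact card_filter_le _ _

/-- double counting -/
theorem sum_dg_comm (A B : Finset V) : ∑ x ∈ A, dg X B x = ∑ y ∈ B, dg X A y := by
  classical
  have h1 : ∀ (C : Finset V) x, dg X C x = ∑ y ∈ C, if X.Adj x y then 1 else 0 := by
    intro C x
    rw [dg, card_filter]
  simp only [h1]
  rw [sum_comm]
  refine sum_congr rfl fun y _ => sum_congr rfl fun x _ => ?_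
  simp only [X.adj_comm x y]

/-- the sum over a union of two disjoint sets -/
theorem S_union {A B : Finset V} (h : Disjoint A B) :
    S X (A ∪ B) = S X A + S X B + 2 * ∑ y ∈ B, dg X A y := by
  rw [S, S, S, sum_union h]
  simp only [dg_union h, sum_add_distrib]
  rw [sum_dg_comm A B]
  ring

theorem S_sdiff {A B : Finset V} (h : A ⊆ B) :
    S X B = S X A + S X (B \ A) + 2 * ∑ y ∈ B \ A, dg X A y := by
  rw [← S_union disjoint_sdiff, union_sdiff_of_subset h]

theorem S_insert {A : Finset V} {x : V} (hx : x ∉ A) :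
    S X (insert x A) = S X A + 2 * dg X A x := by
  have h1 : Disjoint A {x} := disjoint_singleton_right.2 hx
  have h2 : insert x A = A ∪ {x} := by rw [insert_eq, union_comm]
  rw [h2, S_union h1]
  simp [S, dg]

theorem S_erase {A : Finset V} {x : V} (hx : x ∈ A) :
    S X A = S X (A.erase x) + 2 * dg X A x := by
  have h1 := S_insert (X := X) (notMem_erase x A)
  rw [insert_erase hx, dg_erase_self] at h1
  exact h1

theorem S_mono {A B : Finset V} (h : A ⊆ B) : S X A ≤ S X B := by
  rw [S_sdiff h]
  omega

theorem S_le (A : Finset V) : S X A + A.card ≤ A.card * A.card := by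
  have h1 : ∑ x ∈ A, (dg X A x + 1) ≤ ∑ _x ∈ A, A.card := sum_le_sum fun x hx => dg_lt hx
  rw [sum_add_distrib] at h1
  simpa [S] using h1

theorem S_empty : S X ∅ = 0 := by simp [S]

theorem Good.two_mul_le {A : Finset V} (h : Good X A) : 2 * A.card ≤ S X A := by
  have h1 : ∑ _x ∈ A, 2 ≤ ∑ x ∈ A, dg X A x := sum_le_sum h
  simpa [S, mul_comm] using h1

theorem Good.three_le {A : Finset V} (h : Good X A) (hA : A.Nonempty) : 3 ≤ A.card := by
  obtain ⟨x, hx⟩ := hA
  have h1 := h x hx
  have h2 := dg_lt (X := X) hx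
  omega

/-- the union of two disjoint good sets is good -/
theorem Good.union {A B : Finset V} (hA : Good X A) (hB : Good X B) : Good X (A ∪ B) := by
  intro x hx
  rcases mem_union.1 hx with h | h
  · exact (hA x h).trans (dg_mono subset_union_left x)
  · exact (hB x h).trans (dg_mono subset_union_right x)

/-- every set all of whose pairs are adjacent has large degrees -/
theorem dg_complete {A : Finset V} (h : ∀ x ∈ A, ∀ y ∈ A, x ≠ y → X.Adj x y) {x : V} (hx : x ∈ A) :
    dg X A x + 1 = A.card := by
  classical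
  rw [← dg_erase_self, ← card_erase_add_one hx, dg]
  congr 1
  congr 1
  refine filter_true_of_mem fun y hy => ?_
  exact h x hx y (mem_of_mem_erase hy) (ne_of_mem_erase hy).symm

/-- the union bound when the vertices of `B` outside `A` have at most one neighbour in `A` -/
theorem S_le_of_le_one {A B : Finset V} (h : A ⊆ B) (h1 : ∀ y ∈ B \ A, dg X A y ≤ 1) :
    S X B ≤ S X A + S X (B \ A) + 2 * (B \ A).card := by
  rw [S_sdiff h]
  have h2 : ∑ y ∈ B \ A, dg X A y ≤ ∑ _y ∈ B \ A, 1 := sum_le_sum h1
  simp only [sum_const, smul_eq_mul, mul_one] at h2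
  omega

end Pool.Agent.Lib.MP270b6b.PT
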