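import Pool.Agent.Lib.MP_270b6b_co.PT.Spec

/-!
MP_270b6b_co, module EAR: replacing vertices of `R` by an ear.
-/

set_option autoImplicit false

open Finset

namespace Pool.Agent.Lib.MP270b6b.PT

namespace EARM

set_option linter.unusedSectionVars false

variable {V : Type} [DecidableEq V] {X : SimpleGraph V}

/-- Adjacent to everything. -/
lemma full {A : Finset V} {x : V} (h : A.card ≤ dg X A x) : ∀ y ∈ A, X.Adj x y := by
  classical
  have h1 : (A.filter fun y => X.Adj x y) = A := by
    refine eq_of_subset_of_card_le (filter_subset _ _) ?_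
    exact h
  intro y hy
  rw [← h1] at hy
  exact (mem_filter.1 hy).2

/-- A set with the largest number of edges is complete. -/
lemma complete {A : Finset V} (h : A.card * A.card ≤ S X A + A.card) :
    ∀ p ∈ A, ∀ q ∈ A, p ≠ q → X.Adj p q := by
  classical
  have h1 : ∑ x ∈ A, (dg X A x + 1) = ∑ _x ∈ A, A.card := by
    refine le_antisymm (sum_le_sum fun x hx => dg_lt hx) ?_
    rw [sum_add_distrib]
    simpa [S] using h
  have h2 := (sum_eq_sum_iff_of_le fun x hx => dg_lt (X := X) hx).1 h1
  intro p hp q hq hpq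
  have h3 := h2 p hp
  refine full (A := A.erase p) ?_ q (mem_erase.2 ⟨hpq.symm, hq⟩)
  rw [dg_erase_self, card_erase_of_mem hp]
  omega

/-- The final step. -/
lemma fin {R T B : Finset V} {k : ℕ} (hRT : Disjoint R T) (hB : B ⊆ R)
    (hN : ∀ y ∈ R, 1 ≤ dg X T y → y ∈ B) (hc : B.card + T.card = k + 1)
    (h1 : ∀ u ∈ T, 2 ≤ dg X T u + dg X R u) (h2 : ∀ x ∈ B, 2 ≤ dg X B x + dg X T x) :
    ∃ P : Finset V, P.card = k + 1 ∧ Good X P := by
  classical
  have hd : Disjoint B T := disjoint_of_subset_left hB hRT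
  refine ⟨B ∪ T, ?_, ?_⟩
  · rw [card_union_of_disjoint hd, hc]
  · intro x hx
    rw [dg_union hd]
    rcases mem_union.1 hx with h | h
    · exact h2 x h
    · have h3 : dg X R x ≤ dg X B x := by
        refine card_le_card fun y hy => ?_
        obtain ⟨hy1, hy2⟩ := mem_filter.1 hy
        refine mem_filter.2 ⟨hN y hy1 ?_, hy2⟩
        exact dg_pos.2 ⟨x, h, hy2.symm⟩
      have h4 := h1 x h
      omega

end EARM

open EARM in
theorem specEAR (hSWP : SpecSWP) : SpecEAR := by
  classical
  intro V _ X R T k hk hR hRT ht2 htk h1 h2 h3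
  set N := R.filter (fun x => 1 ≤ dg X T x) with hN
  have hNR : N ⊆ R := filter_subset _ _
  have hsum : ∑ x ∈ R, dg X T x = 2 := by rw [sum_dg_comm, h2]
  have hNcard : N.card ≤ 2 := by
    calc N.card = ∑ x ∈ N, 1 := by simp
      _ ≤ ∑ x ∈ N, dg X T x := sum_le_sum fun x hx => (mem_filter.1 hx).2
      _ ≤ ∑ x ∈ R, dg X T x := sum_le_sum_of_subset hNR
      _ = 2 := hsum
  obtain ⟨R', hNR', hR'R, hR'c, -, hsw⟩ := hSWP V X R N (k + 1 - T.card) hNR (by omega) (by omega)
  by_cases hgood : ∀ x ∈ R', 2 ≤ dg X R' x + dg X T x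
  · exact EARM.fin hRT hR'R (fun y hy hy1 => hNR' (mem_filter.2 ⟨hy, hy1⟩)) (by omega) h1 hgood
  push Not at hgood
  obtain ⟨x, hx, hx1⟩ := hgood
  have hxR := hR'R hx
  by_cases hxN : x ∈ N
  · -- case (b)
    have hTx1 : 1 ≤ dg X T x := (mem_filter.1 hxN).2
    have hTx : dg X T x = 1 := by omega
    have hR'x : dg X R' x = 0 := by omega
    -- the other vertex with a neighbour in `T`
    have hsum2 : ∑ p ∈ R.erase x, dg X T p = 1 := by
      have := add_sum_erase R (fun p => dg X T p) hxR
      omega
    obtain ⟨a, haR, ha1⟩ : ∃ a ∈ R.erase x, 1 ≤ dg X T a := by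
      by_contra hcon
      push Not at hcon
      have : ∑ p ∈ R.erase x, dg X T p = 0 := sum_eq_zero fun p hp => by
        have := hcon p hp
        omega
      omega
    obtain ⟨hax, haR2⟩ := mem_erase.1 haR
    have haN : a ∈ N := mem_filter.2 ⟨haR2, ha1⟩
    have haR' : a ∈ R' := hNR' haN
    have hNeq : N = {x, a} := by
      refine (eq_of_subset_of_card_le ?_ ?_).symm
      · intro u hu
        rcases mem_insert.1 hu with rfl | hu
        · exact hxN
        · rw [mem_singleton.1 hu]
          exact haN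
      · rw [card_pair hax.symm]
        exact hNcard
    -- the complement of `R'`
    have hcc : (R \ R').card + R'.card = R.card := card_sdiff_add_card_eq_card hR'R
    have hdx : dg X R x = dg X (R \ R') x := by
      have h4 : dg X R x = dg X R' x + dg X (R \ R') x := by
        rw [← dg_union disjoint_sdiff, union_sdiff_of_subset hR'R]
      omega
    have hdx2 : dg X (R \ R') x ≤ (R \ R').card := dg_le _ _
    have hSe := S_erase (X := X) hxR
    have hSl := S_le (X := X) (R.erase x)
    have hce : (R.erase x).card + 1 = R.card := card_erase_add_one hxR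
    obtain ⟨j, hj⟩ : ∃ j, k = j + 1 := ⟨k - 1, by omega⟩
    have hce' : (R.erase x).card = j := by omega
    rw [hce'] at hSl
    have hkk : k * (k - 1) = j * j + j := by
      rw [hj, Nat.add_sub_cancel]
      ring
    rw [hkk] at h3
    -- equality everywhere
    have hSeq : (R.erase x).card * (R.erase x).card ≤ S X (R.erase x) + (R.erase x).card := by
      rw [hce']
      omega
    have hcomp := EARM.complete hSeq
    have hxy : ∀ y ∈ R \ R', X.Adj x y := EARM.full (by omega)
    -- the two vertices
    obtain ⟨y, hy⟩ : (R \ R').Nonempty := by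
      rw [← card_pos]
      omega
    obtain ⟨hyR, hyR'⟩ := mem_sdiff.1 hy
    have hyx : y ≠ x := fun h => hyR' (h ▸ hx)
    have hya : y ≠ a := fun h => hyR' (h ▸ haR')
    obtain ⟨z, hz⟩ : ((R'.erase x).erase a).Nonempty := by
      rw [← card_pos, card_erase_of_mem (mem_erase.2 ⟨hax, haR'⟩), card_erase_of_mem hx]
      omega
    obtain ⟨hza, hz2⟩ := mem_erase.1 hz
    obtain ⟨hzx, hzR'⟩ := mem_erase.1 hz2
    have hyz : y ∉ R'.erase z := fun h => hyR' (mem_of_mem_erase h)
    have hBR : insert y (R'.erase z) ⊆ R := by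
      intro u hu
      rcases mem_insert.1 hu with rfl | hu
      · exact hyR
      · exact hR'R (mem_of_mem_erase hu)
    have hyB : y ∈ insert y (R'.erase z) := mem_insert_self _ _
    have haB : a ∈ insert y (R'.erase z) := mem_insert_of_mem (mem_erase.2 ⟨hza.symm, haR'⟩)
    have hxB : x ∈ insert y (R'.erase z) := mem_insert_of_mem (mem_erase.2 ⟨hzx.symm, hx⟩)
    refine EARM.fin hRT hBR ?_ ?_ h1 ?_
    · intro u hu hu1
      have hu2 : u ∈ N := mem_filter.2 ⟨hu, hu1⟩
      rw [hNeq] at hu2
      rcases mem_insert.1 hu2 with rfl | hu2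
      · exact hxB
      · rw [mem_singleton.1 hu2]
        exact haB
    · rw [card_insert_of_notMem hyz, card_erase_of_mem hzR']
      omega
    · intro q hq
      by_cases hqx : q = x
      · subst hqx
        have h5 : 1 ≤ dg X (insert y (R'.erase z)) q := dg_pos.2 ⟨y, hyB, hxy y hy⟩
        omega
      · have hqE : q ∈ R.erase x := mem_erase.2 ⟨hqx, hBR hq⟩
        by_cases hqa : q = a
        · subst hqa
          have h5 : 1 ≤ dg X (insert y (R'.erase z)) q :=
            dg_pos.2 ⟨y, hyB, hcomp q hqE y (mem_erase.2 ⟨hyx, hyR⟩) hya.symm⟩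
          omega
        · by_cases hqy : q = y
          · subst hqy
            have h5 : 2 ≤ dg X (insert q (R'.erase z)) q :=
              two_le_dg hxB haB hax.symm (hxy q hy).symm (hcomp q hqE a haR hqa)
            omega
          · have h5 : 2 ≤ dg X (insert y (R'.erase z)) q :=
              two_le_dg hyB haB hya (hcomp q hqE y (mem_erase.2 ⟨hyx, hyR⟩) hqy)
                (hcomp q hqE a haR hqa)
            omega
  · -- case (a)
    exfalso
    have h4 := hsw x hx hxN (by omega)
    have hAR : R'.erase x ⊆ R := (erase_subset _ _).trans hR'R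
    have h5 := S_le_of_le_one (X := X) hAR fun y hy => h4 y (mem_sdiff.1 hy).1 (mem_sdiff.1 hy).2
    have h6 := S_le (X := X) (R'.erase x)
    have h7 := S_le (X := X) (R \ R'.erase x)
    have hc1 : (R'.erase x).card + 1 = R'.card := card_erase_add_one hx
    have hc2 : (R \ R'.erase x).card + (R'.erase x).card = R.card :=
      card_sdiff_add_card_eq_card hAR
    obtain ⟨c, hc⟩ : ∃ c, k = T.card + c := ⟨k - T.card, by omega⟩
    have hc3 : (R'.erase x).card = c := by omega
    have hc4 : (R \ R'.erase x).card = T.card := by omega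
    rw [hc3] at h6
    rw [hc4] at h5 h7
    set t := T.card with htdef
    have hkk : k * (k - 1) + k = k * k := by
      obtain ⟨j, hj⟩ : ∃ j, k = j + 1 := ⟨k - 1, by omega⟩
      rw [hj, Nat.add_sub_cancel]
      ring
    have hkc : k - t = c := by omega
    rw [hkc] at h3
    have hk2 : k * k = t * t + 2 * (t * c) + c * c := by
      rw [hc]
      ring
    have h8 : t * c ≤ t + c := by omega
    have hc2' : 2 ≤ c := by omega
    obtain ⟨c', rfl⟩ : ∃ c', c = c' + 2 := ⟨c - 2, by omega⟩
    obtain ⟨t', ht'⟩ : ∃ t', t = t' + 2 := ⟨t - 2, by omega⟩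
    rw [ht'] at h8
    have h9 : (t' + 2) * (c' + 2) = t' * c' + 2 * t' + 2 * c' + 4 := by ring
    omega

end Pool.Agent.Lib.MP270b6b.PT
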