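import Pool.Agent.Lib.MP_270b6b_co.PT.Spec

set_option autoImplicit false

open Finset

namespace Pool.Agent.Lib.MP270b6b.PT

theorem specFIN (hSWP : SpecSWP) (hNMC : SpecNMC) (hCFO : SpecCFO) (hNTW : SpecNTW) :
    SpecFIN := by
  classical
  intro V _ _ X k hk hV hS
  by_contra hcon
  push Not at hcon
  obtain ⟨hP, hbal⟩ := hcon
  have huniv : (univ : Finset V).card = 2 * k := by rw [card_univ, hV]
  obtain ⟨P, -, -, hPc, hPm, hPx⟩ := hSWP V X univ ∅ (k + 1) (empty_subset _) (by simp)
    (by rw [huniv]; omega)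
  have h1 : ∃ v ∈ P, dg X P v ≤ 1 := by
    by_contra h
    push Not at h
    exact hP P hPc fun x hx => h x hx
  obtain ⟨v, hv, hv1⟩ := h1
  set R := P.erase v with hR
  set D := Rᶜ with hD
  have hRc : R.card = k := by rw [hR, card_erase_of_mem hv, hPc]; omega
  have hDc : D.card = k := by rw [hD, card_compl, hV, hRc]; omega
  have hdis : Disjoint R D := disjoint_compl_right
  have hun : R ∪ D = univ := union_compl R
  have hD1 : ∀ u ∈ D, dg X R u ≤ 1 := fun u hu =>
    hPx v hv (notMem_empty v) hv1 u (mem_univ u) (mem_compl.1 hu)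
  have hsum : ∑ u ∈ D, dg X R u + (D.filter fun u => dg X R u = 0).card = k := by
    have h2 : ∀ u ∈ D, dg X R u + (if dg X R u = 0 then 1 else 0) = 1 := by
      intro u hu
      have := hD1 u hu
      split_ifs with h <;> omega
    have h3 := sum_congr rfl h2
    rw [sum_add_distrib, sum_const, smul_eq_mul, mul_one, hDc, ← card_filter] at h3
    exact h3
  have hS2 : S X univ = S X R + S X D + 2 * ∑ u ∈ D, dg X R u := by
    rw [← hun, S_union hdis]
  have hkk : k * (k + 1) = k * (k - 1) + 2 * k := by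
    obtain ⟨j, rfl⟩ : ∃ j, k = j + 1 := ⟨k - 1, by omega⟩
    simp only [Nat.add_sub_cancel]
    ring
  have hI : k * (k - 1) + 2 + 2 * (D.filter fun u => dg X R u = 0).card ≤ S X R + S X D := by
    omega
  have hSP : S X P = S X R + 2 * dg X P v := by rw [hR]; exact S_erase hv
  have hSD : S X D ≤ S X R + 2 := by
    obtain ⟨x, hx⟩ : R.Nonempty := card_pos.1 (by omega)
    have hxD : x ∉ D := fun h => (mem_compl.1 h) hx
    have h2 := hPm (insert x D) (empty_subset _) (subset_univ _) (by
      rw [card_insert_of_notMem hxD, hDc])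
    have h3 := S_mono (X := X) (subset_insert x D)
    omega
  by_cases hgood : ∃ B ⊆ D, B.Nonempty ∧ Good X B
  · have h2 := hNMC V X R D k hk hRc hDc hdis (by omega) hSD hP
    rcases hNTW V X R D k hk hRc hDc hdis hun hD1 hI h2 hgood with h | h
    · obtain ⟨Q, hQ, hQg⟩ := h
      exact hP Q hQ hQg
    · obtain ⟨V₁, h3, h4, h5⟩ := h
      obtain ⟨x, hx, hx'⟩ := hbal V₁ h3 h4
      have := h5 x hx
      omega
  · have h2 : ∀ B ⊆ D, Good X B → B = ∅ := by
      intro B hB hBg
      by_contra hne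
      exact hgood ⟨B, hB, nonempty_iff_ne_empty.2 hne, hBg⟩
    rcases hCFO V X R D k hk hRc hDc hdis hun hD1 hI h2 with h | h
    · obtain ⟨Q, hQ, hQg⟩ := h
      exact hP Q hQ hQg
    · obtain ⟨V₁, h3, h4, h5⟩ := h
      obtain ⟨x, hx, hx'⟩ := hbal V₁ h3 h4
      have := h5 x hx
      omega

end Pool.Agent.Lib.MP270b6b.PT
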