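import Pool.Agent.Lib.MP_270b6b_co.PT.Spec

/-!
# MIN: minimal `w`-good sets
-/

set_option autoImplicit false

open Finset

namespace Pool.Agent.Lib.MP270b6b.PT

theorem specMIN (hCOR : SpecCOR) : SpecMIN := by
  intro V _ X w T hT hw hg hgood hmin
  obtain ⟨c1, c2⟩ := hCOR V X
  have h1 : S X T + 2 ≤ 2 * T.card := c2 T hT hgood
  have hS : S X T + ∑ u ∈ T, w u = ∑ u ∈ T, (dg X T u + w u) := by
    rw [sum_add_distrib]
    rfl
  have h2 : ∑ _u ∈ T, 2 ≤ ∑ u ∈ T, (dg X T u + w u) := sum_le_sum hg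
  have h2' : ∑ _u ∈ T, 2 = 2 * T.card := by
    rw [sum_const, smul_eq_mul, mul_comm]
  have hwt : ∑ u ∈ T, w u ≤ T.card := by
    have h3 : ∑ u ∈ T, w u ≤ ∑ _u ∈ T, 1 := sum_le_sum hw
    simpa using h3
  obtain ⟨v, hv, hv2⟩ : ∃ v ∈ T, dg X T v + w v ≤ 2 := by
    by_contra hcon
    push Not at hcon
    have h3 : ∑ _u ∈ T, 3 ≤ ∑ u ∈ T, (dg X T u + w u) := sum_le_sum fun u hu => hcon u hu
    have h3' : ∑ _u ∈ T, 3 = 3 * T.card := by
      rw [sum_const, smul_eq_mul, mul_comm]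
    omega
  obtain ⟨B, hB, hBg, hBi⟩ := c1 w (T.erase v)
  have hBe : B = ∅ := by
    refine hmin B ?_ hBg
    exact lt_of_le_of_lt hB (erase_ssubset hv)
  subst hBe
  rw [S_empty, sum_empty, card_empty] at hBi
  have h4 := S_erase (X := X) hv
  have h5 : ∑ u ∈ T, w u = ∑ u ∈ T.erase v, w u + w v := (sum_erase_add T w hv).symm
  have h6 : (T.erase v).card + 1 = T.card := card_erase_add_one hv
  have h7 : ∑ u ∈ T, w u = 2 := by omega
  have h8 : S X T + 2 = 2 * T.card := by omega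
  refine ⟨h7, h8, by omega, ?_⟩
  have h9 : ∑ u ∈ T, 2 = ∑ u ∈ T, (dg X T u + w u) := by omega
  intro u hu
  exact ((sum_eq_sum_iff_of_le hg).1 h9 u hu).symm

end Pool.Agent.Lib.MP270b6b.PT
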