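import Pool.Agent.Lib.MP_270b6b_co.PT.Spec

/-!
# NAA: a long cycle in `D`, no isolated vertices in `D` (author: helper47)
-/

set_option autoImplicit false
set_option linter.unusedSectionVars false

open Finset

namespace Pool.Agent.Lib.MP270b6b.PT

namespace NAAM

variable {V : Type} [DecidableEq V] {X : SimpleGraph V}

/-- a set with the maximal number of edges is complete -/
theorem complete_of_S {A : Finset V} (h : A.card * A.card ≤ S X A + A.card) :
    ∀ x ∈ A, ∀ y ∈ A, x ≠ y → X.Adj x y := by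
  classical
  have h1 : ∀ x ∈ A, dg X A x + 1 ≤ A.card := fun x hx => dg_lt hx
  have h2 : ∑ x ∈ A, (dg X A x + 1) = ∑ _x ∈ A, A.card := by
    refine le_antisymm (sum_le_sum h1) ?_
    rw [sum_add_distrib]
    simpa [S] using h
  have h3 := (sum_eq_sum_iff_of_le h1).1 h2
  intro x hx y hy hxy
  by_contra hn
  have h4 := h3 x hx
  have h5 : dg X ((A.erase x).erase y) x = dg X A x := by
    rw [dg_erase_not_adj hn, dg_erase_self]
  have h6 := dg_le (X := X) ((A.erase x).erase y) x
  have h7 : y ∈ A.erase x := mem_erase.2 ⟨hxy.symm, hy⟩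
  have h8 := card_erase_add_one h7
  have h9 := card_erase_add_one hx
  omega

end NAAM

open NAAM in
theorem specNAA : SpecNAA := by
  intro V _ _ X R D B k hk hR hD hdis huniv hdR hsum hSD hBD hB hB2 hD1
  classical
  have hRD : ∀ z, z ∈ R ↔ z ∉ D := by
    intro z
    constructor
    · exact fun h1 h2 => disjoint_left.1 hdis h1 h2
    · intro h1
      have h2 : z ∈ R ∪ D := by rw [huniv]; exact mem_univ z
      exact (mem_union.1 h2).resolve_right h1
  have hDc : Dᶜ = R := by
    ext z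
    rw [mem_compl, hRD]
  by_cases hall : ∀ x ∈ R, 1 ≤ dg X R x
  · right
    exact ⟨D, hD, hD1, by rw [hDc]; exact hall⟩
  rw [not_forall] at hall
  obtain ⟨x, hx⟩ := hall
  rw [Classical.not_imp] at hx
  obtain ⟨hxR, hx0⟩ := hx
  have hx0' : dg X R x = 0 := by omega
  have hxn : ∀ y ∈ R, ¬ X.Adj x y := dg_eq_zero.1 hx0'
  obtain ⟨R', hR'⟩ : ∃ R', R' = R.erase x := ⟨_, rfl⟩
  have hR'c : R'.card + 1 = k := by rw [hR', card_erase_add_one hxR, hR]
  obtain ⟨σ, hσ⟩ : ∃ σ, σ = (D.filter fun u => dg X R u = 0).card := ⟨_, rfl⟩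
  rw [← hσ] at hsum
  have hSR : S X R = S X R' := by
    rw [S_erase hxR, hx0', ← hR']
    omega
  have hSle := S_le (X := X) R'
  have hnum : σ = 0 ∧ R'.card * R'.card ≤ S X R' + R'.card := by
    obtain ⟨m, hm⟩ : ∃ m, m = R'.card := ⟨_, rfl⟩
    rw [← hm] at hR'c hSle ⊢
    rw [hSR, ← hR'c] at hsum
    rw [← hR'c] at hSD
    have h1 : (m + 1) * (m + 1 - 1) = m * m + m := by
      rw [Nat.add_sub_cancel]; ring
    rw [h1] at hsum
    constructor <;> omega
  have hcomp := complete_of_S hnum.2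
  have hR'sub : R' ⊆ R := by rw [hR']; exact erase_subset _ _
  have hxR' : x ∉ R' := by rw [hR']; exact notMem_erase x R
  have hnb : ∀ u ∈ D, ∃ a ∈ R, X.Adj u a := by
    intro u hu
    refine dg_pos.1 ?_
    by_contra h0
    have h1 : u ∈ D.filter fun u => dg X R u = 0 := mem_filter.2 ⟨hu, by omega⟩
    have h2 := card_pos.2 ⟨u, h1⟩
    omega
  have hnx : ∀ u ∈ D, ¬ X.Adj u x → ∃ a ∈ R', X.Adj u a := by
    intro u hu hux
    obtain ⟨a, ha, hua⟩ := hnb u hu
    refine ⟨a, ?_, hua⟩
    rw [hR']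
    refine mem_erase.2 ⟨?_, ha⟩
    rintro rfl
    exact hux hua
  have hdgR' : ∀ z ∈ R', dg X R' z + 2 = k := by
    intro z hz
    have := dg_complete hcomp hz
    omega
  by_cases hc1 : ∃ u ∈ D, ∃ u' ∈ D, X.Adj u u' ∧ ¬ X.Adj u x ∧ ¬ X.Adj u' x
  · left
    obtain ⟨u, hu, u', hu', huu, hux, hu'x⟩ := hc1
    obtain ⟨a, ha, hua⟩ := hnx u hu hux
    obtain ⟨a', ha', hua'⟩ := hnx u' hu' hu'x
    have huR' : u ∉ R' := fun h => (hRD u).1 (hR'sub h) hu
    have hu'R' : u' ∉ R' := fun h => (hRD u').1 (hR'sub h) hu'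
    have hne : u ≠ u' := huu.ne
    have hu'i : u ∉ insert u' R' := by
      rw [mem_insert]
      rintro (h | h)
      · exact hne h
      · exact huR' h
    refine ⟨insert u (insert u' R'), ?_, ?_⟩
    · rw [card_insert_of_notMem hu'i, card_insert_of_notMem hu'R']
      omega
    · intro z hz
      rcases mem_insert.1 hz with rfl | hz
      · refine two_le_dg (y := u') (z := a) (by simp) (by simp [ha]) ?_ huu hua
        rintro rfl
        exact hu'R' ha
      rcases mem_insert.1 hz with rfl | hz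
      · refine two_le_dg (y := u) (z := a') (by simp) (by simp [ha']) ?_ huu.symm hua'
        rintro rfl
        exact huR' ha'
      · have h1 := hdgR' z hz
        have h2 : dg X R' z ≤ dg X (insert u (insert u' R')) z :=
          dg_mono ((subset_insert _ _).trans (subset_insert _ _)) z
        omega
  by_cases hc2 : ∃ u ∈ D, ∃ u' ∈ D, X.Adj u u' ∧ X.Adj u x ∧ X.Adj u' x
  · left
    obtain ⟨u, hu, u', hu', huu, hux, hu'x⟩ := hc2
    obtain ⟨A, hAR, hAc⟩ := exists_subset_card_eq (s := R') (n := k - 2) (by omega)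
    have huR : u ∉ R := fun h => (hRD u).1 h hu
    have hu'R : u' ∉ R := fun h => (hRD u').1 h hu'
    have hxA : x ∉ A := fun h => hxR' (hAR h)
    have huA : u ∉ A := fun h => huR (hR'sub (hAR h))
    have hu'A : u' ∉ A := fun h => hu'R (hR'sub (hAR h))
    have hne : u ≠ u' := huu.ne
    have h1 : u' ∉ insert x A := by
      rw [mem_insert]
      rintro (h | h)
      · exact hu'R (h ▸ hxR)
      · exact hu'A h
    have h2 : u ∉ insert u' (insert x A) := by
      rw [mem_insert, mem_insert]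
      rintro (h | h | h)
      · exact hne h
      · exact huR (h ▸ hxR)
      · exact huA h
    refine ⟨insert u (insert u' (insert x A)), ?_, ?_⟩
    · rw [card_insert_of_notMem h2, card_insert_of_notMem h1, card_insert_of_notMem hxA]
      omega
    · intro z hz
      rcases mem_insert.1 hz with rfl | hz
      · exact two_le_dg (y := u') (z := x) (by simp) (by simp) hu'x.ne huu hux
      rcases mem_insert.1 hz with rfl | hz
      · exact two_le_dg (y := u) (z := x) (by simp) (by simp) hux.ne huu.symm hu'x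
      rcases mem_insert.1 hz with rfl | hz
      · exact two_le_dg (y := u) (z := u') (by simp) (by simp) hne hux.symm hu'x.symm
      · have h3 := dg_complete (X := X) (A := A)
          (fun p hp q hq hpq => hcomp p (hAR hp) q (hAR hq) hpq) hz
        have h4 : dg X A z ≤ dg X (insert u (insert u' (insert x A))) z :=
          dg_mono ((subset_insert _ _).trans ((subset_insert _ _).trans (subset_insert _ _))) z
        omega
  right
  have hBne : B.Nonempty := card_pos.1 (by omega)
  obtain ⟨v, hvB, hvx⟩ : ∃ v ∈ B, X.Adj v x := by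
    obtain ⟨b, hb⟩ := hBne
    obtain ⟨b', hb', hbb⟩ := dg_pos.1 (show 1 ≤ dg X B b by rw [hB2 b hb]; omega)
    by_cases h1 : X.Adj b x
    · exact ⟨b, hb, h1⟩
    · by_cases h2 : X.Adj b' x
      · exact ⟨b', hb', h2⟩
      · exact absurd ⟨b, hBD hb, b', hBD hb', hbb, h1, h2⟩ hc1
  obtain ⟨u, huB, hvu, hDB⟩ : ∃ u ∈ B, X.Adj v u ∧
      ∀ y ∈ D, y ∉ B → ∃ y₀ ∈ D, y₀ ≠ u ∧ X.Adj y y₀ := by
    obtain ⟨u₁, hu₁, u₂, hu₂, h12, hv1, hv2⟩ := exists_two (show 2 ≤ dg X B v by rw [hB2 v hvB])
    by_cases hex : ∃ y ∈ D, y ∉ B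
    · obtain ⟨y, hyD, hyB⟩ := hex
      obtain ⟨y₀, hy₀, hyy⟩ := dg_pos.1 (hD1 y hyD)
      have huniq : ∀ z ∈ D, z ∉ B → z = y := by
        intro z hzD hzB
        by_contra hzy
        have h1 : insert z (insert y B) ⊆ D := by
          intro w hw
          rcases mem_insert.1 hw with rfl | hw
          · exact hzD
          rcases mem_insert.1 hw with rfl | hw
          · exact hyD
          · exact hBD hw
        have h2 := card_le_card h1
        rw [card_insert_of_notMem (by rw [mem_insert]; rintro (h | h); exacts [hzy h, hzB h]),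
          card_insert_of_notMem hyB] at h2
        omega
      by_cases h1 : y₀ = u₁
      · refine ⟨u₂, hu₂, hv2, fun z hz hzB => ?_⟩
        rw [huniq z hz hzB]
        exact ⟨y₀, hy₀, by rw [h1]; exact h12, hyy⟩
      · refine ⟨u₁, hu₁, hv1, fun z hz hzB => ?_⟩
        rw [huniq z hz hzB]
        exact ⟨y₀, hy₀, h1, hyy⟩
    · exact ⟨u₁, hu₁, hv1, fun y hy hyB => absurd ⟨y, hy, hyB⟩ hex⟩
  have huD := hBD huB
  have hvD := hBD hvB
  have hux : ¬ X.Adj u x := fun h => hc2 ⟨v, hvD, u, huD, hvu, hvx, h⟩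
  have hxD : x ∉ D := (hRD x).1 hxR
  have huR : u ∉ R := fun h => (hRD u).1 h huD
  have hcompl : (insert x (D.erase u))ᶜ = insert u R' := by
    ext z
    rw [mem_compl, mem_insert, mem_erase, mem_insert, hR', mem_erase, hRD z]
    constructor
    · intro h
      by_cases hzu : z = u
      · exact Or.inl hzu
      · refine Or.inr ⟨fun hzx => h (Or.inl hzx), fun hzD => h (Or.inr ⟨hzu, hzD⟩)⟩
    · rintro (h | ⟨h1, h2⟩) h3
      · rcases h3 with h3 | ⟨h3, -⟩
        · exact huR (by rw [← h, h3]; exact hxR)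
        · exact h3 h
      · rcases h3 with h3 | ⟨-, h3⟩
        · exact h1 h3
        · exact h2 h3
  refine ⟨insert x (D.erase u), ?_, ?_, ?_⟩
  · rw [card_insert_of_notMem (fun h => hxD (mem_of_mem_erase h)), card_erase_add_one huD, hD]
  · intro z hz
    rcases mem_insert.1 hz with rfl | hz
    · exact dg_pos.2 ⟨v, mem_insert_of_mem (mem_erase.2 ⟨hvu.ne, hvD⟩), hvx.symm⟩
    · obtain ⟨hzu, hzD⟩ := mem_erase.1 hz
      by_cases hzB : z ∈ B
      · obtain ⟨p, hp, q, hq, hpq, hzp, hzq⟩ := exists_two (show 2 ≤ dg X B z by rw [hB2 z hzB])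
        by_cases hpu : p = u
        · refine dg_pos.2 ⟨q, mem_insert_of_mem (mem_erase.2 ⟨?_, hBD hq⟩), hzq⟩
          rintro rfl
          exact hpq hpu
        · exact dg_pos.2 ⟨p, mem_insert_of_mem (mem_erase.2 ⟨hpu, hBD hp⟩), hzp⟩
      · obtain ⟨y₀, h1, h2, h3⟩ := hDB z hzD hzB
        exact dg_pos.2 ⟨y₀, mem_insert_of_mem (mem_erase.2 ⟨h2, h1⟩), h3⟩
  · rw [hcompl]
    intro z hz
    rcases mem_insert.1 hz with rfl | hz
    · obtain ⟨a, ha, hza⟩ := hnx z huD hux
      exact dg_pos.2 ⟨a, mem_insert_of_mem ha, hza⟩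
    · have h1 := hdgR' z hz
      have h2 : dg X R' z ≤ dg X (insert u R') z := dg_mono (subset_insert _ _) z
      omega

end Pool.Agent.Lib.MP270b6b.PT
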