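import Pool.Agent.Lib.MP_270b6b_co.PT.Spec

/-!
# NAL
-/

set_option autoImplicit false
set_option linter.unusedSectionVars false
set_option linter.unusedVariables false

open Finset

namespace Pool.Agent.Lib.MP270b6b.PT

namespace NALM

theorem sum_eq {V : Type} [DecidableEq V] (A : Finset V) (w : V → ℕ) (h : ∀ u ∈ A, w u ≤ 1) :
    ∑ u ∈ A, w u + (A.filter fun u => w u = 0).card = A.card := by
  rw [card_filter, ← sum_add_distrib, card_eq_sum_ones]
  apply sum_congr rfl
  intro u hu
  have := h u hu
  split_ifs <;> omega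

end NALM

open NALM in
theorem specNAL (hEAR : SpecEAR) (hNPR : SpecNPR) : SpecNAL := by
  intro V _ X R B y k hk hR hB hyB hdis hB1 hB2 hmin hBy hRy hS
  have hdisB : Disjoint R B := disjoint_of_subset_right (subset_insert y B) hdis
  have hfil : ((insert y B).filter (fun u => dg X R u = 0)).card =
      (B.filter fun u => dg X R u = 0).card + 1 := by
    rw [filter_insert, if_pos hRy, card_insert_of_notMem]
    exact fun h => hyB (mem_filter.1 h).1
  have hSD : S X (insert y B) = 2 * (k - 1) := by
    rw [S_insert hyB, hBy, mul_zero, add_zero, S, sum_congr rfl hB2]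
    simp only [sum_const, smul_eq_mul]
    have : B.card = k - 1 := by omega
    rw [this, mul_comm]
  rw [hfil, hSD] at hS
  set σ := (B.filter fun u => dg X R u = 0).card with hσ
  have hsum := sum_eq B (fun u => dg X R u) hB1
  rw [← hσ] at hsum
  have hSR := S_le (X := X) R
  rw [hR] at hSR
  have hkk : k * (k - 1) + k = k * k := by
    obtain ⟨m, rfl⟩ : ∃ m, k = m + 1 := ⟨k - 1, by omega⟩
    simp only [Nat.add_sub_cancel]
    ring
  have hσk : σ + 3 ≤ k := by omega
  obtain ⟨T, hTB, hT2, hTc, hTd⟩ := hNPR V X (fun u => dg X R u) B (by omega) hB1 hB2 hmin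
    (by
      show 2 ≤ ∑ u ∈ B, dg X R u
      have h0 : ∑ u ∈ B, dg X R u + σ = B.card := hsum
      omega)
  have hTsum := sum_eq T (fun u => dg X R u) (fun u hu => hB1 u (hTB.1 hu))
  have hTle : (T.filter fun u => dg X R u = 0).card ≤ σ :=
    card_le_card (filter_subset_filter _ hTB.1)
  have hTcard := card_lt_card hTB
  have hT2' : ∑ u ∈ T, dg X R u = 2 := hT2
  have hTsum' : ∑ u ∈ T, dg X R u + (T.filter fun u => dg X R u = 0).card = T.card := hTsum
  have hTk : T.card + 2 ≤ k := by omega
  refine hEAR V X R T k hk hR (disjoint_of_subset_right hTB.1 hdisB) hTc hTk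
    (fun u hu => ?_) hT2' ?_
  · have : dg X T u + dg X R u = 2 := hTd u hu
    omega
  · omega

end Pool.Agent.Lib.MP270b6b.PT
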