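import Pool.Agent.Lib.MP_270b6b_co.PT.Spec

/-!
# NBB
-/

set_option autoImplicit false
set_option linter.unusedSectionVars false
set_option linter.unusedVariables false

open Finset

namespace Pool.Agent.Lib.MP270b6b.PT

namespace NBBM

variable {V : Type} [DecidableEq V] {X : SimpleGraph V}

theorem sum_eq (A : Finset V) (w : V → ℕ) (h : ∀ u ∈ A, w u ≤ 1) :
    ∑ u ∈ A, w u + (A.filter fun u => w u = 0).card = A.card := by
  rw [card_filter, ← sum_add_distrib, card_eq_sum_ones]
  apply sum_congr rfl
  intro u hu
  have := h u hu
  split_ifs <;> omega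

theorem complete_of_S {R : Finset V} {k : ℕ} (hR : R.card = k) (h1 : k * (k - 1) ≤ S X R)
    {x z : V} (hx : x ∈ R) (hz : z ∈ R) (hxz : x ≠ z) : X.Adj x z := by
  by_contra hnot
  have hk : 1 ≤ k := by
    rw [← hR]
    exact card_pos.2 ⟨x, hx⟩
  have h2 : dg X R x + 2 ≤ k := by
    rw [← dg_erase_self, ← dg_erase_not_adj (A := R.erase x) (x := z) (y := x) hnot]
    have h3 := dg_le (X := X) ((R.erase x).erase z) x
    have h4 : ((R.erase x).erase z).card + 2 = k := by
      have h5 : ((R.erase x).erase z).card + 1 = (R.erase x).card :=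
        card_erase_add_one (mem_erase.2 ⟨hxz.symm, hz⟩)
      have h6 : (R.erase x).card + 1 = R.card := card_erase_add_one hx
      omega
    omega
  have h7 : ∑ a ∈ R, (dg X R a + 1) < ∑ _a ∈ R, k := by
    apply sum_lt_sum
    · intro a ha
      have := dg_lt (X := X) ha
      omega
    · exact ⟨x, hx, by omega⟩
  rw [sum_add_distrib] at h7
  simp only [sum_const, smul_eq_mul, mul_one, hR] at h7
  have h8 : S X R + k < k * k := h7
  obtain ⟨m, rfl⟩ : ∃ m, k = m + 1 := ⟨k - 1, by omega⟩
  simp only [Nat.add_sub_cancel] at h1
  nlinarith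

end NBBM

open NBBM in
theorem specNBB (hEAR : SpecEAR) (hNPR : SpecNPR) : SpecNBB := by
  intro V _ _ X R B y c k hk hR hB hyB hdis huniv hD1 hB2 hmin hBy hc hyc hzc hS
  have hdisB : Disjoint R B := disjoint_of_subset_right (subset_insert y B) hdis
  have hyR : y ∉ R := fun h => (disjoint_left.1 hdis) h (mem_insert_self y B)
  have hB1 : ∀ u ∈ B, dg X R u ≤ 1 := fun u hu => hD1 u (mem_insert_of_mem hu)
  have hRy : dg X R y ≠ 0 := by
    have := dg_pos.2 ⟨c, hc, hyc⟩
    omega
  have hfil : (insert y B).filter (fun u => dg X R u = 0) = B.filter fun u => dg X R u = 0 := by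
    rw [filter_insert, if_neg hRy]
  have hSD : S X (insert y B) = 2 * (k - 1) := by
    rw [S_insert hyB, hBy, mul_zero, add_zero, S, sum_congr rfl hB2]
    simp only [sum_const, smul_eq_mul]
    have : B.card = k - 1 := by omega
    rw [this, mul_comm]
  rw [hfil, hSD] at hS
  set σ := (B.filter fun u => dg X R u = 0).card with hσ
  have hsum := sum_eq B (fun u => dg X R u) hB1
  rw [← hσ] at hsum
  have hSR := S_le (X := X) R
  rw [hR] at hSR
  have hkk : k * (k - 1) + k = k * k := by
    obtain ⟨m, rfl⟩ : ∃ m, k = m + 1 := ⟨k - 1, by omega⟩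
    simp only [Nat.add_sub_cancel]
    ring
  have hσk : σ + 2 ≤ k := by omega
  by_cases hw : σ + 3 ≤ k
  · left
    obtain ⟨T, hTB, hT2, hTc, hTd⟩ := hNPR V X (fun u => dg X R u) B (by omega) hB1 hB2 hmin
      (by
        show 2 ≤ ∑ u ∈ B, dg X R u
        have h0 : ∑ u ∈ B, dg X R u + σ = B.card := hsum
        omega)
    have hTsum := sum_eq T (fun u => dg X R u) (fun u hu => hB1 u (hTB.1 hu))
    have hTle : (T.filter fun u => dg X R u = 0).card ≤ σ :=
      card_le_card (filter_subset_filter _ hTB.1)
    have hTcard := card_lt_card hTB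
    have hT2' : ∑ u ∈ T, dg X R u = 2 := hT2
    have hTsum' : ∑ u ∈ T, dg X R u + (T.filter fun u => dg X R u = 0).card = T.card := hTsum
    have hTk : T.card + 2 ≤ k := by omega
    refine hEAR V X R T k hk hR (disjoint_of_subset_right hTB.1 hdisB) hTc hTk
      (fun u hu => ?_) hT2' ?_
    · have : dg X T u + dg X R u = 2 := hTd u hu
      omega
    · omega
  · right
    have hσ2 : σ + 2 = k := by omega
    have hcomp : ∀ x ∈ R, ∀ z ∈ R, x ≠ z → X.Adj x z := fun x hx z hz hxz =>
      complete_of_S hR (by omega) hx hz hxz
    -- two adjacent vertices of the cycle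
    have hBne : B.Nonempty := by
      rw [← card_pos]
      omega
    obtain ⟨u, hu⟩ := hBne
    obtain ⟨u', hu', -, -, -, huu', -⟩ := exists_two (X := X) (A := B) (x := u) (by rw [hB2 u hu])
    have hne : u ≠ u' := huu'.ne
    obtain ⟨z, hz, hzc'⟩ : ∃ z ∈ R, z ≠ c := by
      apply exists_mem_ne
      omega
    have hcB : c ∉ B := fun h => (disjoint_left.1 hdisB) hc h
    have hzB : z ∉ B := fun h => (disjoint_left.1 hdisB) hz h
    have hyc' : y ≠ c := hyc.ne
    have hyz : y ≠ z := fun h => hyR (h ▸ hz)
    have hsub : ({u, u'} : Finset V) ⊆ B := by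
      intro a ha
      rcases mem_insert.1 ha with rfl | ha
      · exact hu
      · rw [mem_singleton.1 ha]
        exact hu'
    refine ⟨(B \ {u, u'}) ∪ {c, y, z}, ?_, ?_, ?_⟩
    · rw [card_union_of_disjoint, card_sdiff_of_subset hsub, card_pair hne, card_eq_three.2
        ⟨c, y, z, hyc'.symm, hzc'.symm, hyz, rfl⟩]
      · omega
      · rw [disjoint_left]
        intro a ha hb
        have haB := (mem_sdiff.1 ha).1
        simp only [mem_insert, mem_singleton] at hb
        rcases hb with rfl | rfl | rfl
        · exact hcB haB
        · exact hyB haB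
        · exact hzB haB
    · have hcV : c ∈ (B \ {u, u'}) ∪ {c, y, z} := by simp
      have hyV : y ∈ (B \ {u, u'}) ∪ {c, y, z} := by simp
      intro x hx
      rcases mem_union.1 hx with hx | hx
      · obtain ⟨hxB, hxu⟩ := mem_sdiff.1 hx
        simp only [mem_insert, mem_singleton, not_or] at hxu
        obtain ⟨a, ha, b, hb, hab, hxa, hxb⟩ := exists_two (X := X) (A := B) (x := x)
          (by rw [hB2 x hxB])
        by_cases haa : a = u ∨ a = u'
        · by_cases hbb : b = u ∨ b = u'
          · exfalso
            have hboth : X.Adj x u ∧ X.Adj x u' := by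
              rcases haa with rfl | rfl <;> rcases hbb with rfl | rfl
              · exact absurd rfl hab
              · exact ⟨hxa, hxb⟩
              · exact ⟨hxb, hxa⟩
              · exact absurd rfl hab
            have hss : ({x, u, u'} : Finset V) ⊂ B := by
              refine ⟨?_, ?_⟩
              · intro v hv
                simp only [mem_insert, mem_singleton] at hv
                rcases hv with rfl | rfl | rfl
                · exact hxB
                · exact hu
                · exact hu'
              · intro hcon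
                have h3 := card_le_card hcon
                have h4 := card_le_three (a := x) (b := u) (c := u')
                omega
            have hgood : Good X {x, u, u'} := by
              intro v hv
              simp only [mem_insert, mem_singleton] at hv
              rcases hv with rfl | rfl | rfl
              · exact two_le_dg (y := u) (z := u') (by simp) (by simp) hne hboth.1 hboth.2
              · exact two_le_dg (y := x) (z := u') (by simp) (by simp) hxu.2 hboth.1.symm huu'
              · exact two_le_dg (y := x) (z := u) (by simp) (by simp) hxu.1 hboth.2.symm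
                  huu'.symm
            have := hmin _ hss hgood
            have hx0 : x ∈ ({x, u, u'} : Finset V) := mem_insert_self _ _
            rw [this] at hx0
            exact notMem_empty _ hx0
          · refine dg_pos.2 ⟨b, mem_union_left _ (mem_sdiff.2 ⟨hb, ?_⟩), hxb⟩
            simpa using hbb
        · refine dg_pos.2 ⟨a, mem_union_left _ (mem_sdiff.2 ⟨ha, ?_⟩), hxa⟩
          simpa using haa
      · simp only [mem_insert, mem_singleton] at hx
        rcases hx with rfl | rfl | rfl
        · exact dg_pos.2 ⟨y, hyV, hyc.symm⟩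
        · exact dg_pos.2 ⟨c, hcV, hyc⟩
        · exact dg_pos.2 ⟨c, hcV, hcomp x hz c hc hzc'⟩
    · have huV : u ∈ ((B \ {u, u'}) ∪ {c, y, z})ᶜ := by
        rw [mem_compl]
        intro h
        rcases mem_union.1 h with h | h
        · exact (mem_sdiff.1 h).2 (by simp)
        · simp only [mem_insert, mem_singleton] at h
          rcases h with h | h | h
          · exact hcB (h ▸ hu)
          · exact hyB (h ▸ hu)
          · exact hzB (h ▸ hu)
      have huV' : u' ∈ ((B \ {u, u'}) ∪ {c, y, z})ᶜ := by
        rw [mem_compl]
        intro h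
        rcases mem_union.1 h with h | h
        · exact (mem_sdiff.1 h).2 (by simp)
        · simp only [mem_insert, mem_singleton] at h
          rcases h with h | h | h
          · exact hcB (h ▸ hu')
          · exact hyB (h ▸ hu')
          · exact hzB (h ▸ hu')
      intro x hx
      by_cases hxu : x = u
      · subst hxu
        exact dg_pos.2 ⟨u', huV', huu'⟩
      by_cases hxu' : x = u'
      · subst hxu'
        exact dg_pos.2 ⟨u, huV, huu'.symm⟩
      rw [mem_compl, mem_union, not_or] at hx
      obtain ⟨hx1, hx2⟩ := hx
      simp only [mem_insert, mem_singleton, not_or] at hx2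
      have hxuniv : x ∈ R ∪ insert y B := by
        rw [huniv]
        exact mem_univ x
      have hxR : x ∈ R := by
        rcases mem_union.1 hxuniv with h | h
        · exact h
        · exfalso
          rcases mem_insert.1 h with h | h
          · exact hx2.2.1 h
          · exact hx1 (mem_sdiff.2 ⟨h, by simp [hxu, hxu']⟩)
      obtain ⟨x', hx', hxx'⟩ : ∃ x' ∈ (R.erase c).erase z, x' ≠ x := by
        apply exists_mem_ne
        have h1 := card_erase_add_one hc
        have h2 := card_erase_add_one (mem_erase.2 ⟨hzc', hz⟩ : z ∈ R.erase c)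
        omega
      have hx'R : x' ∈ R := mem_of_mem_erase (mem_of_mem_erase hx')
      have hx'z : x' ≠ z := ne_of_mem_erase hx'
      have hx'c : x' ≠ c := ne_of_mem_erase (mem_of_mem_erase hx')
      refine dg_pos.2 ⟨x', ?_, hcomp x hxR x' hx'R hxx'.symm⟩
      rw [mem_compl, mem_union, not_or]
      refine ⟨fun h => (disjoint_left.1 hdisB) hx'R (mem_sdiff.1 h).1, ?_⟩
      simp only [mem_insert, mem_singleton, not_or]
      exact ⟨hx'c, fun h => hyR (h ▸ hx'R), hx'z⟩

end Pool.Agent.Lib.MP270b6b.PT
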