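import Pool.Agent.Lib.MP_270b6b_co.PT.Spec

/-!
# NBC: a long cycle, an isolated vertex `y ~ c`, and another vertex of `R` with a neighbour in `B`
-/

set_option autoImplicit false

open Finset

namespace Pool.Agent.Lib.MP270b6b.PT

namespace NBCM

variable {V : Type} [DecidableEq V] {X : SimpleGraph V}

lemma complete_of_S {A : Finset V} (h : A.card * A.card ≤ S X A + A.card) :
    ∀ x ∈ A, ∀ y ∈ A, x ≠ y → X.Adj x y := by
  intro x hx y hy hxy
  by_contra hcon
  have h1 : dg X A x ≤ ((A.erase x).erase y).card := by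
    rw [← dg_erase_self, ← dg_erase_not_adj (A := A.erase x) (x := y) hcon]
    exact dg_le _ _
  have h2 := card_erase_add_one hx
  have h3 := card_erase_add_one (mem_erase.2 ⟨hxy.symm, hy⟩)
  have h4 : ∑ v ∈ A, (dg X A v + 1) < ∑ _v ∈ A, A.card :=
    sum_lt_sum (fun v hv => dg_lt hv) ⟨x, hx, by omega⟩
  rw [sum_add_distrib] at h4
  simp only [sum_const, smul_eq_mul, mul_one] at h4
  unfold S at h
  omega

/-- the case in which `u` and `u'` have the neighbours `x₀` and `z` -/
lemma mixed {R B : Finset V} {k : ℕ} (hk : 16 ≤ k) (hR : R.card = k) (hRB : Disjoint R B)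
    {x₀ z u u' : V} (hx₀ : x₀ ∈ R) (hz : z ∈ R) (hxz : X.Adj x₀ z)
    (hcomp : ∀ x ∈ R.erase x₀, ∀ y ∈ R.erase x₀, x ≠ y → X.Adj x y) (hu : u ∈ B) (hu' : u' ∈ B)
    (huu : X.Adj u u') (h1 : X.Adj u x₀) (h2 : X.Adj u' z) :
    ∃ P : Finset V, P.card = k + 1 ∧ Good X P := by
  have hne : x₀ ≠ z := hxz.ne
  have hune : u ≠ u' := huu.ne
  have huR : u ∉ R := fun h => disjoint_left.1 hRB h hu
  have hu'R : u' ∉ R := fun h => disjoint_left.1 hRB h hu'
  obtain ⟨q, hq⟩ : ((R.erase x₀).erase z).Nonempty := by
    rw [← card_pos]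
    have e1 := card_erase_add_one hx₀
    have e2 := card_erase_add_one (mem_erase.2 ⟨hne.symm, hz⟩)
    omega
  have hqz : q ≠ z := ne_of_mem_erase hq
  have hqx : q ≠ x₀ := ne_of_mem_erase (mem_of_mem_erase hq)
  have hqR : q ∈ R := mem_of_mem_erase (mem_of_mem_erase hq)
  have hx₀q : x₀ ∈ R.erase q := mem_erase.2 ⟨hqx.symm, hx₀⟩
  have hzq : z ∈ R.erase q := mem_erase.2 ⟨hqz.symm, hz⟩
  have hu1 : u ∉ insert u' (R.erase q) := by
    rw [mem_insert]
    rintro (h | h)
    · exact hune h
    · exact huR (mem_of_mem_erase h)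
  have hu2 : u' ∉ R.erase q := fun h => hu'R (mem_of_mem_erase h)
  refine ⟨insert u (insert u' (R.erase q)), ?_, ?_⟩
  · rw [card_insert_of_notMem hu1, card_insert_of_notMem hu2]
    have := card_erase_add_one hqR
    omega
  · have hsub : R.erase q ⊆ insert u (insert u' (R.erase q)) :=
      (subset_insert _ _).trans (subset_insert _ _)
    have mu : u ∈ insert u (insert u' (R.erase q)) := mem_insert_self _ _
    have mu' : u' ∈ insert u (insert u' (R.erase q)) := mem_insert_of_mem (mem_insert_self _ _)
    intro x hx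
    rw [mem_insert, mem_insert] at hx
    rcases hx with rfl | rfl | hx
    · exact two_le_dg mu' (hsub hx₀q) (fun h => hu'R (h ▸ hx₀)) huu h1
    · exact two_le_dg mu (hsub hzq) (fun h => huR (h ▸ hz)) huu.symm h2
    · by_cases hxx : x = x₀
      · subst hxx
        exact two_le_dg mu (hsub hzq) (fun h => huR (h ▸ hz)) h1.symm hxz
      · have hxR : x ∈ R := mem_of_mem_erase hx
        have hxq : x ≠ q := ne_of_mem_erase hx
        have h3 : x ∈ (R.erase x₀).erase q := mem_erase.2 ⟨hxq, mem_erase.2 ⟨hxx, hxR⟩⟩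
        have h4 := dg_complete (X := X) (A := (R.erase x₀).erase q)
          (fun a ha b hb hab => hcomp a (mem_of_mem_erase ha) b (mem_of_mem_erase hb) hab) h3
        have e1 := card_erase_add_one hx₀
        have e2 := card_erase_add_one (mem_erase.2 ⟨hqx, hqR⟩)
        have hsub2 : (R.erase x₀).erase q ⊆ insert u (insert u' (R.erase q)) := by
          intro a ha
          exact hsub (mem_erase.2 ⟨ne_of_mem_erase ha, mem_of_mem_erase (mem_of_mem_erase ha)⟩)
        have h5 := dg_mono (X := X) hsub2 x
        omega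

end NBCM

open NBCM in
/-- NBC -/
theorem specNBC : SpecNBC := by
  intro V _ _ X R B y c k hk hR hB hyB hdis huniv hle hB2 hyB0 hc hyc hz hcount
  have hyR : y ∉ R := fun h => disjoint_left.1 hdis h (mem_insert_self _ _)
  have hRB : Disjoint R B := hdis.mono_right (subset_insert _ _)
  -- case (1)
  have case1 : ∀ z ∈ R, z ≠ c → 1 ≤ dg X B z → (∀ x ∈ R.erase z, 1 ≤ dg X (R.erase z) x) →
      ∃ V₁ : Finset V, V₁.card = k ∧ (∀ x ∈ V₁, 1 ≤ dg X V₁ x) ∧ ∀ x ∈ V₁ᶜ, 1 ≤ dg X V₁ᶜ x := by
    intro z hz hzc hzB hall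
    have hzB' : z ∉ B := fun h => disjoint_left.1 hRB hz h
    refine ⟨insert z B, by rw [card_insert_of_notMem hzB', hB], ?_, ?_⟩
    · intro x hx
      rcases mem_insert.1 hx with rfl | hx
      · rw [dg_insert_self]
        exact hzB
      · have h1 := dg_mono (X := X) (subset_insert z B) x
        have h2 := hB2 x hx
        omega
    · have hcompl : (insert z B)ᶜ = insert y (R.erase z) := by
        ext v
        rw [mem_compl, mem_insert, mem_insert, mem_erase]
        have hv : v ∈ R ∪ insert y B := by rw [huniv]; exact mem_univ v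
        rw [mem_union, mem_insert] at hv
        constructor
        · intro h
          push Not at h
          rcases hv with hv | hv | hv
          · exact Or.inr ⟨h.1, hv⟩
          · exact Or.inl hv
          · exact absurd hv h.2
        · rintro (rfl | ⟨h1, h2⟩) h
          · rcases h with rfl | h
            · exact hyR hz
            · exact hyB h
          · rcases h with h | h
            · exact h1 h
            · exact disjoint_left.1 hRB h2 h
      rw [hcompl]
      intro x hx
      rcases mem_insert.1 hx with rfl | hx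
      · rw [dg_insert_self, dg_pos]
        exact ⟨c, mem_erase.2 ⟨hzc.symm, hc⟩, hyc⟩
      · exact (hall x hx).trans (dg_mono (subset_insert _ _) x)
  by_cases hcase : ∃ z ∈ R, z ≠ c ∧ 1 ≤ dg X B z ∧ ∀ x ∈ R.erase z, 1 ≤ dg X (R.erase z) x
  · obtain ⟨z, h1, h2, h3, h4⟩ := hcase
    exact Or.inr (case1 z h1 h2 h3 h4)
  left
  push Not at hcase
  obtain ⟨z, hzR, hzc, hzB⟩ := hz
  obtain ⟨x₀, hx₀, hx₀0⟩ := hcase z hzR hzc hzB
  have hx₀z : x₀ ≠ z := ne_of_mem_erase hx₀
  have hx₀R : x₀ ∈ R := mem_of_mem_erase hx₀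
  -- counting
  have hSB : S X B = 2 * B.card := by
    unfold S
    rw [sum_congr rfl hB2]
    simp [mul_comm]
  have hSD : S X (insert y B) = 2 * B.card := by
    rw [S_insert hyB, hyB0, hSB]
    omega
  have e1 := card_erase_add_one hx₀R
  have hSR := S_erase (X := X) hx₀R
  have hS0 := S_le (X := X) (R.erase x₀)
  have hdeg : dg X R x₀ ≤ 1 := by
    have := dg_le_erase (X := X) (A := R) z x₀
    omega
  set σ := ((insert y B).filter fun u => dg X R u = 0).card with hσ
  obtain ⟨j, rfl⟩ : ∃ j, k = j + 1 := ⟨k - 1, by omega⟩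
  have hR0 : (R.erase x₀).card = j := by omega
  have hBj : B.card = j := by omega
  rw [hSD, hBj, Nat.add_sub_cancel] at hcount
  rw [hR0] at hS0
  have hexp : (j + 1) * j = j * j + j := by ring
  rw [hexp] at hcount
  have hσ0 : σ = 0 := by omega
  have hdeg1 : dg X R x₀ = 1 := by omega
  have hS0' : j * j ≤ S X (R.erase x₀) + j := by omega
  have hcomp : ∀ x ∈ R.erase x₀, ∀ y ∈ R.erase x₀, x ≠ y → X.Adj x y := by
    apply complete_of_S
    rw [hR0]
    exact hS0'
  have hxz : X.Adj x₀ z := by
    obtain ⟨w, hw, hw2⟩ := dg_pos.1 hdeg1.ge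
    by_cases hwz : w = z
    · rw [← hwz]
      exact hw2
    · exfalso
      have h1 : 1 ≤ dg X (R.erase z) x₀ := dg_pos.2 ⟨w, mem_erase.2 ⟨hwz, hw⟩, hw2⟩
      omega
  -- only `c` and `z` have neighbours in `B`
  have honly : ∀ z' ∈ R, z' ≠ c → z' ≠ z → dg X B z' = 0 := by
    intro z' hz' hz'c hz'z
    by_contra hcon
    obtain ⟨x, hx, hx0⟩ := hcase z' hz' hz'c (Nat.one_le_iff_ne_zero.2 hcon)
    have hx1 : 1 ≤ dg X (R.erase z') x := by
      rw [dg_pos]
      by_cases hxx : x = x₀
      · exact ⟨z, mem_erase.2 ⟨hz'z.symm, hzR⟩, by rw [hxx]; exact hxz⟩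
      · have hxR : x ∈ R := mem_of_mem_erase hx
        obtain ⟨q, hq⟩ : (((R.erase x₀).erase x).erase z').Nonempty := by
          rw [← card_pos]
          have e2 := card_erase_add_one (mem_erase.2 ⟨hxx, hxR⟩)
          have e3 := pred_card_le_card_erase (s := (R.erase x₀).erase x) (a := z')
          omega
        have q1 := mem_erase.1 hq
        have q2 := mem_erase.1 q1.2
        refine ⟨q, mem_erase.2 ⟨q1.1, mem_of_mem_erase q2.2⟩, ?_⟩
        exact hcomp x (mem_erase.2 ⟨hxx, hxR⟩) q q2.2 q2.1.symm
    omega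
  -- every `u ∈ B` has a neighbour in `{c, z}`
  have hnb : ∀ u ∈ B, ∃ a ∈ R, (a = c ∨ a = z) ∧ X.Adj u a := by
    intro u hu
    have h1 : 1 ≤ dg X R u := by
      rw [Nat.one_le_iff_ne_zero]
      intro h0
      have h2 : u ∈ (insert y B).filter fun u => dg X R u = 0 :=
        mem_filter.2 ⟨mem_insert_of_mem hu, h0⟩
      rw [hσ, card_eq_zero] at hσ0
      rw [hσ0] at h2
      exact absurd h2 (notMem_empty _)
    obtain ⟨a, ha, hua⟩ := dg_pos.1 h1
    refine ⟨a, ha, ?_, hua⟩
    by_contra hcon
    push Not at hcon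
    have h3 := honly a ha hcon.1 hcon.2
    have h4 : 1 ≤ dg X B a := dg_pos.2 ⟨u, hu, hua.symm⟩
    omega
  obtain ⟨u, hu⟩ : B.Nonempty := by
    rw [← card_pos]
    omega
  obtain ⟨u', hu', huu⟩ : ∃ u' ∈ B, X.Adj u u' := by
    have h1 : 1 ≤ dg X B u := by
      have := hB2 u hu
      omega
    exact dg_pos.1 h1
  obtain ⟨a, ha, hacz, hua⟩ := hnb u hu
  obtain ⟨a', ha', ha'cz, hua'⟩ := hnb u' hu'
  have hune : u ≠ u' := huu.ne
  have huR : u ∉ R := fun h => disjoint_left.1 hRB h hu
  have hu'R : u' ∉ R := fun h => disjoint_left.1 hRB h hu'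
  by_cases h2a : x₀ ≠ a ∧ x₀ ≠ a'
  · -- (2a)
    have hu1 : u ∉ insert u' (R.erase x₀) := by
      rw [mem_insert]
      rintro (h | h)
      · exact hune h
      · exact huR (mem_of_mem_erase h)
    have hu2 : u' ∉ R.erase x₀ := fun h => hu'R (mem_of_mem_erase h)
    refine ⟨insert u (insert u' (R.erase x₀)), ?_, ?_⟩
    · rw [card_insert_of_notMem hu1, card_insert_of_notMem hu2, hR0]
    · have hsub : R.erase x₀ ⊆ insert u (insert u' (R.erase x₀)) :=
        (subset_insert _ _).trans (subset_insert _ _)
      have mu : u ∈ insert u (insert u' (R.erase x₀)) := mem_insert_self _ _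
      have mu' : u' ∈ insert u (insert u' (R.erase x₀)) :=
        mem_insert_of_mem (mem_insert_self _ _)
      intro x hx
      rw [mem_insert, mem_insert] at hx
      rcases hx with rfl | rfl | hx
      · exact two_le_dg mu' (hsub (mem_erase.2 ⟨h2a.1.symm, ha⟩)) (fun h => hu'R (h ▸ ha)) huu hua
      · exact two_le_dg mu (hsub (mem_erase.2 ⟨h2a.2.symm, ha'⟩)) (fun h => huR (h ▸ ha'))
          huu.symm hua'
      · have h1 := dg_complete (X := X) hcomp hx
        have h2 := dg_mono (X := X) hsub x
        omega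
  · -- (2b)
    by_cases hb1 : x₀ = a
    · by_cases hb2 : x₀ = a'
      · -- both neighbours are `x₀`
        subst hb1
        subst hb2
        obtain ⟨A, hA, hAc⟩ := exists_subset_card_eq (s := R.erase x₀) (n := j - 1) (by omega)
        have hx₀A : x₀ ∉ A := fun h => (ne_of_mem_erase (hA h)) rfl
        have huA : u ∉ A := fun h => huR (mem_of_mem_erase (hA h))
        have hu'A : u' ∉ A := fun h => hu'R (mem_of_mem_erase (hA h))
        have hux : u ≠ x₀ := fun h => huR (h ▸ ha)
        have hu'x : u' ≠ x₀ := fun h => hu'R (h ▸ ha)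
        have n1 : u' ∉ insert x₀ A := by
          rw [mem_insert]
          rintro (h | h)
          · exact hu'x h
          · exact hu'A h
        have n2 : u ∉ insert u' (insert x₀ A) := by
          rw [mem_insert, mem_insert]
          rintro (h | h | h)
          · exact hune h
          · exact hux h
          · exact huA h
        refine ⟨insert u (insert u' (insert x₀ A)), ?_, ?_⟩
        · rw [card_insert_of_notMem n2, card_insert_of_notMem n1, card_insert_of_notMem hx₀A, hAc]
          omega
        · have hsub : A ⊆ insert u (insert u' (insert x₀ A)) :=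
            ((subset_insert _ _).trans (subset_insert _ _)).trans (subset_insert _ _)
          have mu : u ∈ insert u (insert u' (insert x₀ A)) := mem_insert_self _ _
          have mu' : u' ∈ insert u (insert u' (insert x₀ A)) :=
            mem_insert_of_mem (mem_insert_self _ _)
          have mx : x₀ ∈ insert u (insert u' (insert x₀ A)) :=
            mem_insert_of_mem (mem_insert_of_mem (mem_insert_self _ _))
          intro x hx
          rw [mem_insert, mem_insert, mem_insert] at hx
          rcases hx with rfl | rfl | rfl | hx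
          · exact two_le_dg mu' mx hu'x huu hua
          · exact two_le_dg mu mx hux huu.symm hua'
          · exact two_le_dg mu mu' hune hua.symm hua'.symm
          · have h1 := dg_complete (X := X) (A := A)
              (fun a ha b hb hab => hcomp a (hA ha) b (hA hb) hab) hx
            have h2 := dg_mono (X := X) hsub x
            omega
      · -- `a = x₀ = c`, `a' = z`
        have hcx : c = x₀ := by
          rcases hacz with h | h
          · rw [hb1, h]
          · exact absurd (hb1.trans h) hx₀z
        have ha'z : a' = z := by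
          rcases ha'cz with h | h
          · exact absurd (hcx.symm.trans h.symm) hb2
          · exact h
        exact mixed hk hR hRB hx₀R hzR hxz hcomp hu hu' huu (hb1 ▸ hua) (ha'z ▸ hua')
    · have hb2 : x₀ = a' := by
        by_contra hcon
        exact h2a ⟨hb1, hcon⟩
      have hcx : c = x₀ := by
        rcases ha'cz with h | h
        · rw [hb2, h]
        · exact absurd (hb2.trans h) hx₀z
      have haz : a = z := by
        rcases hacz with h | h
        · exact absurd (hcx.symm.trans h.symm) hb1
        · exact h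
      exact mixed hk hR hRB hx₀R hzR hxz hcomp hu' hu huu.symm (hb2 ▸ hua') (haz ▸ hua)

end Pool.Agent.Lib.MP270b6b.PT
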