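import Pool.Agent.Lib.MP_270b6b_co.PT.Spec

/-!
# MP_270b6b_co, module NMA: no good subset of `D` of medium size
-/

set_option autoImplicit false

open Finset

namespace Pool.Agent.Lib.MP270b6b.PT

theorem specNMA (hDEN : SpecDEN) : SpecNMA := by
  intro V _ X R D k hk hR hRD hS hno B hB hgood hBk
  by_contra hcon
  push Not at hcon
  obtain ⟨a, ha⟩ : ∃ a, k = B.card + a := ⟨k - B.card, by omega⟩
  obtain ⟨c, rfl⟩ : ∃ c, a = c + 3 := ⟨a - 3, by omega⟩
  obtain ⟨m, hm⟩ : ∃ m, k = 2 * (c + 3) + 2 + m := ⟨k - (2 * (c + 3) + 2), by omega⟩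
  have h1 := hDEN V X R (c + 3) (by omega) ?_
  · rw [hR] at h1
    have h2 : (c + 3) * (k * (k - 1)) ≤ 2 * (((c + 3) * (c + 3 - 2) + k) * k) := by
      calc (c + 3) * (k * (k - 1)) ≤ (c + 3) * (2 * S X R) := Nat.mul_le_mul_left _ hS
        _ = 2 * ((c + 3) * S X R) := by ring
        _ ≤ _ := Nat.mul_le_mul_left _ h1
    have h3 : ((c + 3) * (k - 1)) * k ≤ (2 * ((c + 3) * (c + 3 - 2) + k)) * k := by
      calc ((c + 3) * (k - 1)) * k = (c + 3) * (k * (k - 1)) := by ring
        _ ≤ _ := h2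
        _ = _ := by ring
    have h4 : (c + 3) * (k - 1) ≤ 2 * ((c + 3) * (c + 3 - 2) + k) :=
      Nat.le_of_mul_le_mul_right h3 (by omega)
    have h5 : k - 1 = 2 * c + 7 + m := by omega
    have h6 : c + 3 - 2 = c + 1 := by omega
    rw [h5, h6, hm] at h4
    have h7 : c * m + m + c ≤ 1 := by nlinarith
    have h8 : c ≤ 1 := by
      have : 0 ≤ c * m := Nat.zero_le _
      omega
    have h9 : m ≤ 1 := by
      have : 0 ≤ c * m := Nat.zero_le _
      omega
    omega
  · intro C hC hCc hCg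
    have hdis : Disjoint C B := Finset.disjoint_of_subset_left hC
      (Finset.disjoint_of_subset_right hB hRD)
    refine hno (C ∪ B) ?_ (hCg.union hgood)
    rw [Finset.card_union_of_disjoint hdis]
    omega

end Pool.Agent.Lib.MP270b6b.PT
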