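import Pool.Agent.Lib.MP_270b6b_co.PT.Spec

/-!
# Module NMB: `D` has no good subset of `k - 2` elements
-/

set_option autoImplicit false

open Finset

namespace Pool.Agent.Lib.MP270b6b.PT

namespace NMBM

/-- the final numerical contradiction, `k = 16 + j` -/
theorem num (j sR sD s3 : ℕ) (hS : (16 + j) * (j + 15) + 2 ≤ sR + sD)
    (hR : 2 * sR ≤ (16 + j) * (16 + j))
    (hdel : (j + 13) * (j + 12) * sD ≤ (16 + j) * (j + 15) * s3)
    (h4 : 4 * s3 + 29 ≤ (16 + j) * (16 + j) + 4 * (16 + j)) : False := by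
  have h1 : j * j + 30 * j + 228 ≤ 2 * sD := by nlinarith
  have h2 : 4 * s3 ≤ j * j + 36 * j + 291 := by nlinarith
  have h3 := Nat.mul_le_mul_left (2 * ((j + 13) * (j + 12))) h1
  have h5 := Nat.mul_le_mul_left ((16 + j) * (j + 15)) h2
  have h6 : 2 * ((j + 13) * (j + 12)) * (j * j + 30 * j + 228) ≤
      (16 + j) * (j + 15) * (j * j + 36 * j + 291) := by
    calc 2 * ((j + 13) * (j + 12)) * (j * j + 30 * j + 228)
        ≤ 2 * ((j + 13) * (j + 12)) * (2 * sD) := h3
      _ = 4 * ((j + 13) * (j + 12) * sD) := by ring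
      _ ≤ 4 * ((16 + j) * (j + 15) * s3) := Nat.mul_le_mul_left 4 hdel
      _ = (16 + j) * (j + 15) * (4 * s3) := by ring
      _ ≤ _ := h5
  have h7 : (16 + j) * (j + 15) * (j * j + 36 * j + 291) <
      2 * ((j + 13) * (j + 12)) * (j * j + 30 * j + 228) := by
    have h8 : 2 * ((j + 13) * (j + 12)) * (j * j + 30 * j + 228) =
      (16 + j) * (j + 15) * (j * j + 36 * j + 291) +
        (j ^ 4 + 43 * j ^ 3 + 621 * j ^ 2 + 3099 * j + 1296) := by ring
    rw [h8]
    omega
  exact absurd h6 (not_le.mpr h7)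

end NMBM

theorem specNMB (hCOR : SpecCOR) (hDEN : SpecDEN) (hDEL : SpecDEL) (hNMA : SpecNMA) :
    SpecNMB := by
  classical
  intro V _ X R D k hk hR hD hRD hS hSD hP B hB hBg hBc
  obtain ⟨j, rfl⟩ := Nat.exists_eq_add_of_le hk
  have e1 : 16 + j - 1 = j + 15 := by omega
  have e2 : 16 + j - 2 = j + 14 := by omega
  have e3 : 16 + j - 3 = j + 13 := by omega
  have e4 : 16 + j - 4 = j + 12 := by omega
  rw [e1] at hS
  rw [e2] at hBc
  have h3 : ∀ B' ⊆ R, B'.card = 2 + 1 → ¬ Good X B' := by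
    intro B' hB' hc hg
    refine hP (B' ∪ B) ?_ (hg.union hBg)
    rw [card_union_of_disjoint
      (disjoint_of_subset_left hB' (disjoint_of_subset_right hB hRD)), hc, hBc]
    omega
  have hden := hDEN V X R 2 le_rfl h3
  rw [hR] at hden
  have hden' : 2 * S X R ≤ (16 + j) * (16 + j) := by simpa using hden
  obtain ⟨D3, hD3, hD3c, hdel⟩ := (hDEL V X D (16 + j) hD (by omega)).2
  rw [e3, e4, e1] at hdel
  rw [e3] at hD3c
  obtain ⟨B3, hB3, hB3g, hcor⟩ := (hCOR V X).1 (fun _ => 0) D3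
  have hB3g' : Good X B3 := fun x hx => by simpa using hB3g x hx
  simp only [sum_const_zero, mul_zero, add_zero] at hcor
  rw [hD3c] at hcor
  have hB3c : B3.card ≤ j + 13 := hD3c ▸ card_le_card hB3
  have hnma := hNMA V X R D (16 + j) hk hR hRD (by rw [e1]; omega) hP B3 (hB3.trans hD3) hB3g'
    (by omega)
  have hSl := S_le (X := X) B3
  have hc : B3.card = 0 ∨ 3 ≤ B3.card := by
    rcases B3.eq_empty_or_nonempty with h | h
    · left
      rw [h]
      rfl
    · right
      exact hB3g'.three_le h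
  have h4 : 4 * S X D3 + 29 ≤ (16 + j) * (16 + j) + 4 * (16 + j) := by
    obtain ⟨c, hcc⟩ : ∃ c, B3.card = c := ⟨_, rfl⟩
    rw [hcc] at hcor hnma hSl hc
    rcases hc with rfl | hc
    · nlinarith
    · obtain ⟨e, he⟩ := Nat.exists_eq_add_of_le hnma
      have h5 : (17 + j) * (11 + j) + 6 * (2 * c) = 2 * c * (2 * c) + e * (11 + j + 2 * c) := by
        have h6 : 17 + j = 2 * c + e := by omega
        have h7 : 11 + j + 6 = 2 * c + e := by omega
        nlinarith
      have h8 : 0 ≤ e * (11 + j + 2 * c) := Nat.zero_le _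
      nlinarith
  exact NMBM.num j _ _ _ hS hden' hdel h4

end Pool.Agent.Lib.MP270b6b.PT
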