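import Pool.Agent.Lib.MP_270b6b_co.PT.Spec

/-!
# MP_270b6b_co, `m = 2n + 2`: module NMC
-/

set_option autoImplicit false

open Finset

namespace Pool.Agent.Lib.MP270b6b.PT

namespace NMCM

/-- the final inequality -/
theorem ineq (k b : ℤ) (hk : 16 ≤ k) (hb : 3 ≤ b) (hb2 : 2 * b ≤ k + 1) :
    k * (k - 1) * (b * (b - 3) + 2 * (k - 2)) < (k - 2) * (k - 3) * (2 + 2 * b * (k - b - 1)) := by
  obtain ⟨u, rfl⟩ : ∃ u, b = u + 3 := ⟨b - 3, by ring⟩
  have hu : 0 ≤ u := by linarith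
  set v : ℤ := k + 1 - 2 * (u + 3) with hv
  have hv0 : 0 ≤ v := by linarith
  have hF3 : 1 ≤ (k - 2) * (4 * k ^ 2 - 38 * k + 66) := by
    have h1 : 1 ≤ 4 * k ^ 2 - 38 * k + 66 := by nlinarith
    nlinarith
  have hG : 1 ≤ (k - 3) * (k - 1) * (k ^ 2 - 13 * k + 4) := by
    have h1 : 1 ≤ k ^ 2 - 13 * k + 4 := by nlinarith
    have h2 : 1 ≤ (k - 3) * (k - 1) := by nlinarith
    nlinarith
  have hc : 0 ≤ 2 * (k - 2) * (k - 3) + k * (k - 1) := by nlinarith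
  have hid : 4 * (k - 5) * ((k - 2) * (k - 3) * (2 + 2 * (u + 3) * (k - (u + 3) - 1)) -
      k * (k - 1) * ((u + 3) * (u + 3 - 3) + 2 * (k - 2))) =
      4 * (v * ((k - 2) * (4 * k ^ 2 - 38 * k + 66))) + 2 * (u * ((k - 3) * (k - 1) * (k ^ 2 - 13 * k + 4))) +
        2 * ((2 * (k - 2) * (k - 3) + k * (k - 1)) * (u * v * (k - 5))) := by
    rw [hv]
    ring
  have h1 : v ≤ v * ((k - 2) * (4 * k ^ 2 - 38 * k + 66)) := by nlinarith
  have h2 : u ≤ u * ((k - 3) * (k - 1) * (k ^ 2 - 13 * k + 4)) := by nlinarith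
  have h3 : 0 ≤ (2 * (k - 2) * (k - 3) + k * (k - 1)) * (u * v * (k - 5)) :=
    mul_nonneg hc (mul_nonneg (mul_nonneg hu hv0) (by linarith))
  have h4 : 0 < 4 * (k - 5) * ((k - 2) * (k - 3) * (2 + 2 * (u + 3) * (k - (u + 3) - 1)) -
      k * (k - 1) * ((u + 3) * (u + 3 - 3) + 2 * (k - 2))) := by
    rw [hid]
    have h5 : 0 < v + 2 * u := by rw [hv]; linarith
    linarith
  have h6 := pos_of_mul_pos_right h4 (by linarith)
  linarith

end NMCM

open NMCM in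
theorem specNMC (hCOR : SpecCOR) (hBND : SpecBND) (hDEL : SpecDEL) (hNMA : SpecNMA) (hNMB : SpecNMB) :
    SpecNMC := by
  classical
  intro V _ X R D k hk hR hD hRD hsum hle hno B₀ hB₀D hB₀ne hB₀
  by_contra hcon
  -- the largest
  let T : Finset (Finset V) := D.powerset.filter fun B => B.Nonempty ∧ Good X B ∧ B.card ≤ k - 2
  have hT : ∀ B, B ∈ T ↔ B ⊆ D ∧ B.Nonempty ∧ Good X B ∧ B.card ≤ k - 2 := by
    intro B
    simp only [T, mem_filter, mem_powerset]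
  have hTne : T.Nonempty := ⟨B₀, (hT B₀).2 ⟨hB₀D, hB₀ne, hB₀, by omega⟩⟩
  obtain ⟨B, hBT, hBmax⟩ := exists_max_image T Finset.card hTne
  obtain ⟨hBD, hBne, hBg, hBk⟩ := (hT B).1 hBT
  set b := B.card with hb
  have hb3 : 3 ≤ b := hBg.three_le hBne
  have hbk : b ≠ k - 2 := hNMB V X R D k hk hR hD hRD hsum hle hno B hBD hBg
  have hbk3 : b + 3 ≤ k := by omega
  have h2R : k * (k - 1) ≤ 2 * S X R := by omega
  have hb2 : 2 * b ≤ k + 1 := hNMA V X R D k hk hR hRD h2R hno B hBD hBg hbk3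
  -- the set R
  have hRno : ∀ C ⊆ R, C.card = (k - b) + 1 → ¬ Good X C := by
    intro C hC hCc hCg
    have hdis : Disjoint C B := disjoint_of_subset_left hC (disjoint_of_subset_right hBD hRD)
    refine hno (C ∪ B) ?_ (hCg.union hBg)
    rw [card_union_of_disjoint hdis, hCc, ← hb]
    omega
  obtain ⟨A₁, hA₁, hA₁c, hA₁y⟩ := hBND V X R (k - b) (by omega) hRno
  have hS := S_le_of_le_one hA₁ hA₁y
  have hdc : (R \ A₁).card = b := by
    rw [card_sdiff_of_subset hA₁, hR, hA₁c]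
    omega
  have hS1 := S_le (X := X) A₁
  have hS2 := S_le (X := X) (R \ A₁)
  rw [hA₁c] at hS1
  rw [hdc] at hS2 hS
  -- the set D
  obtain ⟨⟨D₂, hD₂, hD₂c, hD₂S⟩, -⟩ := hDEL V X D k hD (by omega)
  obtain ⟨B₂, hB₂, hB₂w, hB₂S⟩ := (hCOR V X).1 (fun _ => 0) D₂
  have hB₂g : Good X B₂ := by
    intro x hx
    have := hB₂w x hx
    simpa using this
  simp only [sum_const_zero, mul_zero, add_zero] at hB₂S
  rw [hD₂c] at hB₂S
  have hS3 := S_le (X := X) B₂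
  set c := B₂.card with hc
  have hcase : c = 0 ∨ (3 ≤ c ∧ c ≤ b) := by
    rcases B₂.eq_empty_or_nonempty with h | h
    · left
      rw [hc, h, card_empty]
    · right
      refine ⟨hB₂g.three_le h, ?_⟩
      have h1 : c ≤ k - 2 := by
        rw [hc, ← hD₂c]
        exact card_le_card hB₂
      exact hBmax B₂ ((hT B₂).2 ⟨hB₂.trans hD₂, h, hB₂g, h1⟩)
  -- numbers
  obtain ⟨m, hm⟩ : ∃ m, k = b + m := ⟨k - b, by omega⟩
  have e1 : k - b = m := by omega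
  rw [e1] at hS1
  have z1 : ((S X A₁ : ℕ) : ℤ) + m ≤ m * m := by exact_mod_cast hS1
  have z2 : ((S X (R \ A₁) : ℕ) : ℤ) + b ≤ b * b := by exact_mod_cast hS2
  have z3 : ((S X R : ℕ) : ℤ) ≤ S X A₁ + S X (R \ A₁) + 2 * b := by exact_mod_cast hS
  have z4 : (k : ℤ) * (k - 1) + 2 ≤ S X R + S X D := by
    have h1 : ((k - 1 : ℕ) : ℤ) = k - 1 := by
      rw [Nat.cast_sub (by omega)]; simp
    rw [← h1]
    exact_mod_cast hsum
  have z5 : ((k : ℤ) - 2) * (k - 3) * S X D ≤ k * (k - 1) * S X D₂ := by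
    have h1 : ((k - 1 : ℕ) : ℤ) = k - 1 := by
      rw [Nat.cast_sub (by omega)]; simp
    have h2 : ((k - 2 : ℕ) : ℤ) = k - 2 := by
      rw [Nat.cast_sub (by omega)]; simp
    have h3 : ((k - 3 : ℕ) : ℤ) = k - 3 := by
      rw [Nat.cast_sub (by omega)]; simp
    rw [← h1, ← h2, ← h3]
    exact_mod_cast hD₂S
  have z6 : ((S X D₂ : ℕ) : ℤ) + 2 * c ≤ S X B₂ + 2 * (k - 2) := by
    have h2 : ((k - 2 : ℕ) : ℤ) = k - 2 := by
      rw [Nat.cast_sub (by omega)]; simp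
    rw [← h2]
    exact_mod_cast hB₂S
  have z7 : ((S X B₂ : ℕ) : ℤ) + c ≤ c * c := by exact_mod_cast hS3
  have zk : (k : ℤ) = b + m := by exact_mod_cast hm
  have zk16 : (16 : ℤ) ≤ k := by exact_mod_cast hk
  have zb3 : (3 : ℤ) ≤ b := by exact_mod_cast hb3
  have zb2 : 2 * (b : ℤ) ≤ k + 1 := by exact_mod_cast hb2
  have z8 : (c : ℤ) * c - 3 * c ≤ b * (b - 3) := by
    rcases hcase with h | ⟨h1, h2⟩
    · rw [h]
      simp only [Nat.cast_zero, mul_zero, sub_zero]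
      exact mul_nonneg (by linarith) (by linarith)
    · have h3 : (3 : ℤ) ≤ c := by exact_mod_cast h1
      have h4 : (c : ℤ) ≤ b := by exact_mod_cast h2
      have h5 : 0 ≤ ((b : ℤ) - c) * (b + c - 3) := mul_nonneg (by linarith) (by linarith)
      have h6 : (b : ℤ) * (b - 3) - (c * c - 3 * c) = (b - c) * (b + c - 3) := by ring
      linarith
  have z9 : ((S X D₂ : ℕ) : ℤ) ≤ b * (b - 3) + 2 * (k - 2) := by linarith
  have z10 : 2 + 2 * (b : ℤ) * (k - b - 1) ≤ S X D := by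
    have h1 : (m : ℤ) = k - b := by linarith
    rw [h1] at z1
    have h2 : 2 + 2 * (b : ℤ) * (k - b - 1) =
        k * (k - 1) + 2 - ((k - b) * (k - b) - (k - b)) - (b * b - b) - 2 * b := by ring
    rw [h2]
    linarith
  have hfin := ineq (k : ℤ) b zk16 zb3 zb2
  have h1 : ((k : ℤ) - 2) * (k - 3) * (2 + 2 * b * (k - b - 1)) ≤ (k - 2) * (k - 3) * S X D :=
    mul_le_mul_of_nonneg_left z10 (mul_nonneg (by linarith) (by linarith))
  have h2 : (k : ℤ) * (k - 1) * S X D₂ ≤ k * (k - 1) * (b * (b - 3) + 2 * (k - 2)) :=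
    mul_le_mul_of_nonneg_left z9 (mul_nonneg (by linarith) (by linarith))
  linarith

end Pool.Agent.Lib.MP270b6b.PT
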