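import Pool.Agent.Lib.MP_270b6b_co.PT.Spec

/-!
# MP_270b6b_co, PT: module NPR (a shortest ear in the cycle)
-/

set_option autoImplicit false

open Finset

namespace Pool.Agent.Lib.MP270b6b.PT

theorem specNPR (hCOR : SpecCOR) (hMIN : SpecMIN) : SpecNPR := by
  classical
  intro V _ X w B h3 hw1 h2 hmin hs
  have hBW : WGood X w B := fun x hx => by rw [h2 x hx]; omega
  have hBne : B.Nonempty := card_pos.1 (by omega)
  -- a smallest nonempty `w`-good subset
  obtain ⟨T, hT, hTmin⟩ := exists_min_image (B.powerset.filter fun T => T.Nonempty ∧ WGood X w T) card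
    ⟨B, mem_filter.2 ⟨mem_powerset.2 subset_rfl, hBne, hBW⟩⟩
  rw [mem_filter, mem_powerset] at hT
  obtain ⟨hTB, hTne, hTW⟩ := hT
  have hTsub : ∀ T' ⊂ T, WGood X w T' → T' = ∅ := by
    intro T' hT' hW'
    by_contra hne
    have h4 := hTmin T' (mem_filter.2 ⟨mem_powerset.2 (hT'.subset.trans hTB), nonempty_iff_ne_empty.2 hne, hW'⟩)
    have h5 := card_lt_card hT'
    omega
  -- it is not `B`
  have hTne' : T ≠ B := by
    intro hTB'
    rw [hTB'] at hTsub
    have hSB : S X B = 2 * B.card := by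
      unfold S
      rw [sum_congr rfl h2, sum_const, smul_eq_mul, mul_comm]
    have key : ∀ v ∈ B, ∑ u ∈ B, w u ≤ 1 + w v := by
      intro v hv
      obtain ⟨B', hB', hW', hS'⟩ := (hCOR V X).1 w (B.erase v)
      have hB'' : B' = ∅ := hTsub B' (lt_of_le_of_lt hB' (erase_ssubset hv)) hW'
      rw [hB'', S_empty, sum_empty, card_empty] at hS'
      have e1 := S_erase (X := X) hv
      have e2 := card_erase_add_one hv
      have e3 : ∑ u ∈ B.erase v, w u + w v = ∑ u ∈ B, w u := sum_erase_add B w hv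
      rw [h2 v hv] at e1
      omega
    have h6 : ∀ v ∈ B, w v = 1 := by
      intro v hv
      have := key v hv
      have := hw1 v hv
      omega
    have h7 : ∑ u ∈ B, w u = B.card := by
      rw [sum_congr rfl h6, sum_const, smul_eq_mul, mul_one]
    obtain ⟨v, hv⟩ := hBne
    have h8 := key v hv
    rw [h6 v hv] at h8
    omega
  have hTB' : T ⊂ B := Finset.ssubset_iff_subset_ne.2 ⟨hTB, hTne'⟩
  obtain ⟨m1, m2, m3, m4⟩ := hMIN V X w T hTne (fun u hu => hw1 u (hTB hu)) hTW
    (fun B' hB' hG => hmin B' (lt_of_le_of_lt hB' hTB') hG) hTsub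
  exact ⟨T, hTB', m1, m3, m4⟩

end Pool.Agent.Lib.MP270b6b.PT
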