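import Pool.Agent.Lib.MP_270b6b_co.PT.Spec

/-!
# MP_270b6b_co, module NTW
-/

set_option autoImplicit false

open Finset

namespace Pool.Agent.Lib.MP270b6b.PT

theorem specNTW (hREG : SpecREG) (hNYY : SpecNYY) (hNAA : SpecNAA) (hNAL : SpecNAL)
    (hNBB : SpecNBB) (hNBC : SpecNBC) : SpecNTW := by
  intro V _ _ X R D k hk hR hD hdis huniv hdg hS hbig hex
  classical
  obtain ⟨B, hBmem, hBmin⟩ := exists_min_image
    (D.powerset.filter fun B => B.Nonempty ∧ Good X B) card (by
      obtain ⟨B, h1, h2, h3⟩ := hex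
      exact ⟨B, mem_filter.2 ⟨mem_powerset.2 h1, h2, h3⟩⟩)
  obtain ⟨hB1, hBne, hBg⟩ := mem_filter.1 hBmem
  have hBD : B ⊆ D := mem_powerset.1 hB1
  have hprop : ∀ B' ⊂ B, Good X B' → B' = ∅ := by
    intro B' h1 h2
    by_contra h3
    have h4 := hBmin B' (mem_filter.2 ⟨mem_powerset.2 (h1.1.trans hBD),
      nonempty_iff_ne_empty.2 h3, h2⟩)
    have h5 := card_lt_card h1
    omega
  have h2 : ∀ x ∈ B, dg X B x = 2 := hREG V X B hBne hBg hprop
  have hSB : S X B = 2 * B.card := by
    rw [S, sum_congr rfl h2, sum_const, smul_eq_mul, mul_comm]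
  have hBk := hbig B hBD hBne hBg
  have hBk2 : B.card ≤ k := hD ▸ card_le_card hBD
  rcases hBk2.eq_or_lt with hc | hc
  · have hBeq : B = D := eq_of_subset_of_card_le hBD (by omega)
    refine hNAA V X R D B k hk hR hD hdis huniv hdg hS ?_ hBD (by omega) h2 ?_
    · rw [← hBeq, hSB, hc]
    · intro u hu
      rw [← hBeq] at hu ⊢
      rw [h2 u hu]
      norm_num
  · have hB1k : B.card + 1 = k := by omega
    obtain ⟨y, hy, hins⟩ := exists_eq_insert_iff.2 ⟨hBD, by omega⟩
    subst hins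
    have hyB := hNYY V X B y k hk hB1k hy h2 hbig
    have hSD : S X (insert y B) = 2 * B.card + 2 * dg X B y := by
      rw [S_insert hy, hSB]
    rcases Nat.le_one_iff_eq_zero_or_eq_one.1 hyB with h0 | h1
    · by_cases hRy : dg X R y = 0
      · exact Or.inl (hNAL V X R B y k hk hR hB1k hy hdis
          (fun u hu => hdg u (mem_insert_of_mem hu)) h2 hprop h0 hRy hS)
      · obtain ⟨c, hc1, hc2⟩ := dg_pos.1 (show 1 ≤ dg X R y by omega)
        by_cases hz : ∃ z ∈ R, z ≠ c ∧ 1 ≤ dg X B z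
        · exact hNBC V X R B y c k hk hR hB1k hy hdis huniv hdg h2 h0 hc1 hc2 hz hS
        · refine hNBB V X R B y c k hk hR hB1k hy hdis huniv hdg h2 hprop h0 hc1 hc2 ?_ hS
          intro z hz1 hz2
          by_contra h3
          exact hz ⟨z, hz1, hz2, by omega⟩
    · refine hNAA V X R (insert y B) B k hk hR hD hdis huniv hdg hS (by omega) hBD (by omega) h2 ?_
      intro u hu
      rcases mem_insert.1 hu with rfl | h3
      · rw [dg_insert_self, h1]
      · have h4 := dg_mono (X := X) hBD u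
        rw [h2 u h3] at h4
        omega

end Pool.Agent.Lib.MP270b6b.PT
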