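import Pool.Agent.Lib.MP_270b6b_co.PT.Spec

/-!
# Module NYY: the vertex outside a long cycle
-/

set_option autoImplicit false

open Finset

namespace Pool.Agent.Lib.MP270b6b.PT

theorem specNYY (hCOR : SpecCOR) : SpecNYY := by
  intro V _ X B y k hk hB hy h2 hmin
  by_contra hcon
  have hcon' : 2 ≤ dg X B y := by omega
  by_cases hall : ∀ v ∈ B, X.Adj v y
  · have hne : B.Nonempty := by
      rw [← card_pos]
      omega
    obtain ⟨v, hv⟩ := hne
    obtain ⟨v', hv', hvv'⟩ := dg_pos.1 (show 1 ≤ dg X B v by rw [h2 v hv]; norm_num)
    have hyv : v ≠ y := fun h => hy (h ▸ hv)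
    have hyv' : v' ≠ y := fun h => hy (h ▸ hv')
    have hne' : v ≠ v' := hvv'.ne
    have hg : Good X ({y, v, v'} : Finset V) := by
      intro x hx
      simp only [mem_insert, mem_singleton] at hx
      rcases hx with rfl | rfl | rfl
      · exact two_le_dg (y := v) (z := v') (by simp) (by simp) hne' (hall v hv).symm
          (hall v' hv').symm
      · exact two_le_dg (y := y) (z := v') (by simp) (by simp) hyv'.symm (hall x hv) hvv'
      · exact two_le_dg (y := y) (z := v) (by simp) (by simp) hyv.symm (hall x hv') hvv'.symm
    have h3 := hmin {y, v, v'} (by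
      intro x hx
      simp only [mem_insert, mem_singleton] at hx
      rcases hx with rfl | rfl | rfl
      · exact mem_insert_self _ _
      · exact mem_insert_of_mem hv
      · exact mem_insert_of_mem hv') ⟨y, by simp⟩ hg
    have h4 : ({y, v, v'} : Finset V).card ≤ 3 := card_le_three
    omega
  · push Not at hall
    obtain ⟨v, hv, hvy⟩ := hall
    have hyv : y ≠ v := fun h => hy (h ▸ hv)
    have hvD : v ∈ insert y B := mem_insert_of_mem hv
    have hcardD : (insert y B).card = k := by
      rw [card_insert_of_notMem hy]
      exact hB
    have hcardD' : ((insert y B).erase v).card + 1 = k := by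
      rw [card_erase_add_one hvD, hcardD]
    have hDeq : (insert y B).erase v = insert y (B.erase v) := erase_insert_of_ne hyv
    by_cases hgood : Good X ((insert y B).erase v)
    · obtain ⟨v₁, h1, v₂, h2', hne, ha1, ha2⟩ := exists_two (show 2 ≤ dg X B v by rw [h2 v hv])
      have key : ∀ u ∈ B, X.Adj v u → X.Adj u y := by
        intro u hu hvu
        by_contra hcon2
        have e1 : dg X (B.erase v) u + 1 = dg X B u := dg_erase_adj hv hvu.symm
        have e2 : u ∈ (insert y B).erase v :=
          mem_erase.2 ⟨hvu.ne', mem_insert_of_mem hu⟩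
        have e3 := hgood u e2
        rw [hDeq, dg_insert_not_adj hcon2] at e3
        have e4 := h2 u hu
        omega
      have k1 := key v₁ h1 ha1
      have k2 := key v₂ h2' ha2
      have hg : Good X ({y, v, v₁, v₂} : Finset V) := by
        intro x hx
        simp only [mem_insert, mem_singleton] at hx
        rcases hx with rfl | rfl | rfl | rfl
        · exact two_le_dg (y := v₁) (z := v₂) (by simp) (by simp) hne k1.symm k2.symm
        · exact two_le_dg (y := v₁) (z := v₂) (by simp) (by simp) hne ha1 ha2
        · exact two_le_dg (y := y) (z := v) (by simp) (by simp) hyv k1 ha1.symm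
        · exact two_le_dg (y := y) (z := v) (by simp) (by simp) hyv k2 ha2.symm
      have h3 := hmin {y, v, v₁, v₂} (by
        intro x hx
        simp only [mem_insert, mem_singleton] at hx
        rcases hx with rfl | rfl | rfl | rfl
        · exact mem_insert_self _ _
        · exact mem_insert_of_mem hv
        · exact mem_insert_of_mem h1
        · exact mem_insert_of_mem h2') ⟨y, by simp⟩ hg
      have h4 : ({y, v, v₁, v₂} : Finset V).card ≤ 4 := card_le_four
      omega
    · have hno : ∀ B' ⊆ (insert y B).erase v, Good X B' → B' = ∅ := by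
        intro B' hB' hg
        by_contra hne
        have h3 := hmin B' (hB'.trans (erase_subset _ _)) (nonempty_iff_ne_empty.2 hne) hg
        have h4 : B' = (insert y B).erase v := eq_of_subset_of_card_le hB' (by omega)
        exact hgood (h4 ▸ hg)
      have hne : ((insert y B).erase v).Nonempty := ⟨y, mem_erase.2 ⟨hyv, mem_insert_self _ _⟩⟩
      have e1 := (hCOR V X).2 _ hne hno
      have e2 := S_erase (X := X) hvD
      have e3 : dg X (insert y B) v = dg X B v := dg_insert_not_adj hvy
      have e4 := S_insert (X := X) hy
      have e5 : S X B = 2 * B.card := by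
        have : S X B = ∑ _x ∈ B, 2 := sum_congr rfl fun x hx => h2 x hx
        rw [this, sum_const, smul_eq_mul, mul_comm]
      have e6 := h2 v hv
      omega

end Pool.Agent.Lib.MP270b6b.PT
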