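import Pool.Agent.Lib.MP_270b6b_co.PT.Spec

/-!
# MP_270b6b_co, module REG: minimal good sets are cycles
-/

set_option autoImplicit false

open Finset

namespace Pool.Agent.Lib.MP270b6b.PT

/-- REG. -/
theorem specREG (hCOR : SpecCOR) : SpecREG := by
  intro V _ X B hB hgood hmin
  have h3 := hgood.three_le hB
  obtain ⟨v, hv, hvmin⟩ := exists_min_image B (dg X B) hB
  have hne : (B.erase v).Nonempty := by
    rw [← card_pos, card_erase_of_mem hv]
    omega
  have h1 := (hCOR V X).2 (B.erase v) hne (fun B' hB' hg => hmin B' (by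
    refine ⟨hB'.trans (erase_subset v B), fun h => ?_⟩
    exact notMem_erase v B (hB' (h hv))) hg)
  rw [card_erase_of_mem hv] at h1
  have h2 := S_erase (X := X) hv
  have h4 : B.card * dg X B v ≤ S X B := by
    have : ∑ _x ∈ B, dg X B v ≤ ∑ x ∈ B, dg X B x := sum_le_sum hvmin
    simpa [S] using this
  have h5 : dg X B v ≤ 2 := by
    by_contra h
    push Not at h
    have h6 : 3 ≤ dg X B v := h
    obtain ⟨c, hc⟩ : ∃ c, B.card = c + 3 := ⟨B.card - 3, by omega⟩
    rw [hc] at h1 h4
    have h7 : (c + 3) * dg X B v = (c + 1) * dg X B v + 2 * dg X B v := by ring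
    have h8 : (c + 1) * 3 ≤ (c + 1) * dg X B v := Nat.mul_le_mul_left _ h6
    omega
  have h6 : S X B ≤ 2 * B.card := by omega
  have h7 := hgood.two_mul_le
  have h8 : ∑ _x ∈ B, 2 = ∑ x ∈ B, dg X B x := by
    have : ∑ _x ∈ B, 2 = 2 * B.card := by simp [mul_comm]
    rw [this]
    exact le_antisymm h7 h6
  have h9 := (sum_eq_sum_iff_of_le (fun x hx => hgood x hx)).mp h8
  intro x hx
  exact (h9 x hx).symm

end Pool.Agent.Lib.MP270b6b.PT
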