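import Pool.Agent.Lib.MP_270b6b_co.PT.Spec

/-!
# PT, module SWP: the exchange argument
-/

set_option autoImplicit false

open Finset

namespace Pool.Agent.Lib.MP270b6b.PT

theorem specSWP : SpecSWP := by
  classical
  intro V _ X A F s hFA hFs hsA
  have hne : ((A.powerset).filter (fun T => F ⊆ T ∧ T.card = s)).Nonempty := by
    obtain ⟨T, h1, h2, h3⟩ := exists_subsuperset_card_eq hFA hFs hsA
    exact ⟨T, mem_filter.2 ⟨mem_powerset.2 h2, h1, h3⟩⟩
  obtain ⟨T, hT, hmax⟩ := exists_max_image _ (fun T => S X T) hne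
  rw [mem_filter, mem_powerset] at hT
  obtain ⟨hTA, hFT, hTs⟩ := hT
  have hmax' : ∀ T' : Finset V, F ⊆ T' → T' ⊆ A → T'.card = s → S X T' ≤ S X T :=
    fun T' h1 h2 h3 => hmax T' (mem_filter.2 ⟨mem_powerset.2 h2, h1, h3⟩)
  refine ⟨T, hFT, hTA, hTs, hmax', ?_⟩
  intro x hx hxF hd y hy hyT
  by_cases hyx : y = x
  · rw [hyx, dg_erase_self]
    exact hd
  · have hyT' : y ∉ T := fun h => hyT (mem_erase.2 ⟨hyx, h⟩)
    have h1 := hmax' (insert y (T.erase x)) ?_ ?_ ?_
    · rw [S_insert hyT, S_erase hx] at h1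
      omega
    · intro z hz
      exact mem_insert_of_mem (mem_erase.2 ⟨fun h => hxF (h ▸ hz), hFT hz⟩)
    · intro z hz
      rcases mem_insert.1 hz with rfl | hz
      · exact hy
      · exact hTA (mem_of_mem_erase hz)
    · rw [card_insert_of_notMem hyT, card_erase_add_one hx, hTs]

end Pool.Agent.Lib.MP270b6b.PT
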