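import Pool.Agent.Lib.MP_270b6b_co.PT.Defs

/-!
# MP_270b6b_co, `m = 2n + 2`: the modules, with their proofs

THEOREM (`SpecFIN`).  Let `k ≥ 16` and let `X` be a graph on `2k` vertices with at least
`C(k+1, 2) + 1` edges.  Then some set of `k + 1` vertices has all inner degrees at least `2`, or the
vertex set is the union of two sets of `k` vertices, each without isolated vertices.
(`X` is the complement of the graph of the problem, `k = n + 1`; `SpecTRA` is the translation.)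

HOW TO WORK.  Module XXX: file `Pool/Agent/Lib/MP_270b6b_co/PT/XXX.lean`, import only
`Pool.Agent.Lib.MP_270b6b_co.PT.Spec`, namespace `Pool.Agent.Lib.MP270b6b.PT`, theorem
`specXXX (hYYY : SpecYYY) .. : SpecXXX` with the hypotheses in the order of deps; private lemmas in a
namespace XXXM.  Use the facts of `Defs.lean` (`dg`, `S` and their lemmas; `S X A` is TWICE the number
of edges in `A`).  In the docstrings `d_A x` is `dg X A x`, `w` is the weight (later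
`w u = d_R u`), `t = |T|`, `b = |B|`, and `2r = k (k - 1) - S R`, the number of ordered nonadjacent
pairs of different vertices of `R`.
-/

set_option autoImplicit false

open Finset

namespace Pool.Agent.Lib.MP270b6b.PT

/-- COR (deps: none; 100 lines).  Peeling.
Proof.  First part, induction on `|A|`: if `A` is `w`-good take `B = A`; else some `x ∈ A` has
`d_A x + w x ≤ 1`, and with `A' = A.erase x`, `S A = S A' + 2 d_A x` (`S_erase`), so
`S A + 2 w(A) ≤ S A' + 2 w(A') + 2`.  Second part (`w = 0`), induction on `|A|`: some `x ∈ A` has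
`d_A x ≤ 1` (otherwise `A` is good and nonempty); if `A = {x}` then `S A = 0`; else the claim for
`A.erase x` gives `S A + 2 ≤ S (A.erase x) + 2 + 2 ≤ 2 (|A| - 1) + 2`. -/
def SpecCOR : Prop :=
  ∀ (V : Type) [DecidableEq V] (X : SimpleGraph V),
    (∀ (w : V → ℕ) (A : Finset V), ∃ B ⊆ A, WGood X w B ∧
      S X A + 2 * ∑ x ∈ A, w x + 2 * B.card ≤ S X B + 2 * ∑ x ∈ B, w x + 2 * A.card) ∧
    ∀ A : Finset V, A.Nonempty → (∀ B ⊆ A, Good X B → B = ∅) → S X A + 2 ≤ 2 * A.card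

/-- SWP (deps: none; 80 lines).  The exchange argument.
Proof.  Let `T` have the largest `S T` among the sets with `F ⊆ T ⊆ A`, `|T| = s` (there are such
sets: `exists_subsuperset_card_eq`).  Let `x ∈ T`, `x ∉ F`, `d_T x ≤ 1`, and `y ∈ A`,
`y ∉ T.erase x`.  If `y = x`: `d_(T.erase x) x = d_T x ≤ 1`.  Else `y ∉ T` and
`T' = insert y (T.erase x)` is one of the sets, so `S (T.erase x) + 2 d_(T.erase x) y = S T' ≤ S T =
S (T.erase x) + 2 d_T x`. -/
def SpecSWP : Prop :=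
  ∀ (V : Type) [DecidableEq V] (X : SimpleGraph V) (A F : Finset V) (s : ℕ), F ⊆ A → F.card ≤ s →
    s ≤ A.card → ∃ T : Finset V, F ⊆ T ∧ T ⊆ A ∧ T.card = s ∧
      (∀ T' : Finset V, F ⊆ T' → T' ⊆ A → T'.card = s → S X T' ≤ S X T) ∧
      ∀ x ∈ T, x ∉ F → dg X T x ≤ 1 → ∀ y ∈ A, y ∉ T.erase x → dg X (T.erase x) y ≤ 1

/-- BND (deps: SWP; 40 lines).  Proof.  SWP with `F = ∅`: `T` is not good, so some `x ∈ T` has
`d_T x ≤ 1`; `A₁ = T.erase x`. -/
def SpecBND : Prop :=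
  ∀ (V : Type) [DecidableEq V] (X : SimpleGraph V) (A : Finset V) (a : ℕ), a + 1 ≤ A.card →
    (∀ B ⊆ A, B.card = a + 1 → ¬ Good X B) →
    ∃ A₁ ⊆ A, A₁.card = a ∧ ∀ y ∈ A \ A₁, dg X A₁ y ≤ 1

/-- DEN (deps: BND; 80 lines).  Sets without good subsets of `a + 1` elements, `a ≥ 2`, have at most
`(a (a - 2) + y) y / (2 a)` edges, `y = |A|` (Mantel's bound for `a = 2`).
Proof.  Strong induction on `y`.  If `y ≤ a`: `S A ≤ y (y - 1)` (`S_le`) and
`a (y - 1) ≤ a (a - 2) + y` since `y (a - 1) ≤ a (a - 1)`.  If `y ≥ a + 1` let `A₁` be as in BND,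
`E = A \ A₁`, `|E| = y - a`: by `S_le_of_le_one`, `S A ≤ S A₁ + S E + 2 (y - a)`, `S A₁ ≤ a (a - 1)`,
`a S E ≤ (a (a - 2) + y - a) (y - a)`, and
`a² (a - 1) + (a (a - 2) + y - a) (y - a) + 2 a (y - a) = (a (a - 2) + y) y`. -/
def SpecDEN : Prop :=
  ∀ (V : Type) [DecidableEq V] (X : SimpleGraph V) (A : Finset V) (a : ℕ), 2 ≤ a →
    (∀ B ⊆ A, B.card = a + 1 → ¬ Good X B) →
    a * S X A ≤ (a * (a - 2) + A.card) * A.card

/-- DEL (deps: none; 90 lines).  Deletion of vertices of small degree.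
Proof.  A set `A` with `y ≥ 2` elements has an `x` with `y d_A x ≤ S A` (the average), so
`(y - 2) S A ≤ y S (A.erase x)`.  Apply this two times (`y = k, k - 1`), resp. three times, and
multiply: `(k - 2) (k - 3) S A ≤ k (k - 1) S A'`, resp.
`(k - 2) (k - 3) (k - 4) S A ≤ k (k - 1) (k - 2) S A'`; cancel `k - 2 > 0`. -/
def SpecDEL : Prop :=
  ∀ (V : Type) [DecidableEq V] (X : SimpleGraph V) (A : Finset V) (k : ℕ), A.card = k → 5 ≤ k →
    (∃ A' ⊆ A, A'.card = k - 2 ∧ (k - 2) * (k - 3) * S X A ≤ k * (k - 1) * S X A') ∧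
    ∃ A' ⊆ A, A'.card = k - 3 ∧ (k - 3) * (k - 4) * S X A ≤ k * (k - 1) * S X A'

/-- NMA (deps: DEN; 90 lines).  No good subset of `D` has between `k / 2 + 1` and `k - 3` elements.
Proof.  Otherwise `a = k - |B|` satisfies `3 ≤ a`, `2a ≤ k - 2`, and `R` has no good subset of
`a + 1` elements (its union with `B` would have `k + 1`).  By DEN `a S R ≤ (a (a - 2) + k) k`, and
`2 S R ≥ k (k - 1)`, so `a (k - 1) ≤ 2 a (a - 2) + 2 k`, that is `k (a - 2) ≤ a (2 a - 3)`.  For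
`a = 3, 4` this gives `k ≤ 9`, `k ≤ 10`; for `a ≥ 5`, `k (a - 2) ≥ (2a + 2) (a - 2) > a (2a - 3)`. -/
def SpecNMA : Prop :=
  ∀ (V : Type) [DecidableEq V] (X : SimpleGraph V) (R D : Finset V) (k : ℕ), 16 ≤ k →
    R.card = k → Disjoint R D → k * (k - 1) ≤ 2 * S X R →
    (∀ P : Finset V, P.card = k + 1 → ¬ Good X P) →
    ∀ B ⊆ D, Good X B → B.card + 3 ≤ k → 2 * B.card ≤ k + 1

/-- NMB (deps: COR, DEN, DEL, NMA; 150 lines).  `D` has no good subset of `k - 2` elements.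
Proof.  Suppose it has; then `R` has no good subset with three elements, so by DEN (`a = 2`)
`2 S R ≤ k²`, and `S D ≥ k (k - 1) + 2 - S R` gives `2 S D ≥ k² - 2 k + 4`.  Let `D₃ ⊆ D`,
`|D₃| = k - 3`, be as in DEL and let `B ⊆ D₃` be as in COR (`w = 0`), `c = |B|`.  `c = 0` or
`3 ≤ c`, `2 c ≤ k + 1` (NMA), and
`S D₃ ≤ S B + 2 (k - 3 - c) ≤ c (c - 1) + 2 (k - 3 - c)`, so `4 S D₃ ≤ (k + 1) (k - 5) + 8 (k - 3) =
k² + 4 k - 29`.  Hence `2 (k - 3) (k - 4) (k² - 2 k + 4) ≤ 4 (k - 3) (k - 4) S D ≤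
4 k (k - 1) S D₃ ≤ k (k - 1) (k² + 4 k - 29)`, which is false for `k ≥ 16`: the difference is
`k⁴ - 21 k³ + 93 k² - 133 k + 96 > 0`. -/
def SpecNMB : Prop :=
  ∀ (V : Type) [DecidableEq V] (X : SimpleGraph V) (R D : Finset V) (k : ℕ), 16 ≤ k →
    R.card = k → D.card = k → Disjoint R D → k * (k - 1) + 2 ≤ S X R + S X D →
    S X D ≤ S X R + 2 → (∀ P : Finset V, P.card = k + 1 → ¬ Good X P) →
    ∀ B ⊆ D, Good X B → B.card ≠ k - 2

/-- NMC (deps: COR, BND, DEL, NMA, NMB; 180 lines).  Every nonempty good subset of `D` has at least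
`k - 1` elements.
Proof.  Otherwise let `B` be a good nonempty subset of `D` with at most `k - 2` elements, `b = |B|`
as large as possible.  By NMB `b ≤ k - 3`, by NMA `2 b ≤ k + 1`, and `b ≥ 3`.  `R` has no good
subset with `k + 1 - b` elements (union with `B`).  By BND (`a = k - b`) and `S_le_of_le_one`
`S R ≤ (k - b) (k - b - 1) + b (b - 1) + 2 b`, so
`S D ≥ k (k - 1) + 2 - S R ≥ 2 + 2 b (k - b - 1)`.  Let `D₂ ⊆ D`, `|D₂| = k - 2`, be as in DEL and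
`B₂ ⊆ D₂` as in COR (`w = 0`), `c = |B₂| ≤ b` by the choice of `b`:
`S D₂ ≤ c (c - 1) + 2 (k - 2 - c) ≤ b (b - 3) + 2 (k - 2)` (`c = 0` or `3 ≤ c ≤ b`).  So
`(k - 2) (k - 3) (2 + 2 b (k - b - 1)) ≤ k (k - 1) (b (b - 3) + 2 (k - 2))`.  But the difference
`F b` of the two sides (left minus right) is a concave quadratic in `b` and
`F 3 = (k - 2) (4 k² - 38 k + 66) > 0`, `F ((k + 1) / 2) = (k - 3) (k - 1) (k² - 13 k + 4) / 4 > 0`:
a contradiction.  (For Lean: with integers or reals,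
`F b = [(k + 1 - 2b) F 3 + (2b - 6) F((k+1)/2)] / (k - 5) + c' (b - 3) ((k + 1) / 2 - b)` with
`c' = 2 (k - 2) (k - 3) + k (k - 1)`; all terms are nonnegative.) -/
def SpecNMC : Prop :=
  ∀ (V : Type) [DecidableEq V] (X : SimpleGraph V) (R D : Finset V) (k : ℕ), 16 ≤ k →
    R.card = k → D.card = k → Disjoint R D → k * (k - 1) + 2 ≤ S X R + S X D →
    S X D ≤ S X R + 2 → (∀ P : Finset V, P.card = k + 1 → ¬ Good X P) →
    ∀ B ⊆ D, B.Nonempty → Good X B → k - 1 ≤ B.card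

/-- EAR (deps: SWP; 220 lines).  Replacing vertices of `R` by an ear.
Proof.  Let `N = {x ∈ R | 1 ≤ d_T x}`; `∑_{x ∈ N} d_T x = ∑_{u ∈ T} d_R u = 2`, so `|N| ≤ 2`, and
`|N| = 1` implies `d_T x = 2` for `x ∈ N`.  Let `R'` be as in SWP (`A = R`, `F = N`,
`s = k + 1 - t ≥ 3`).  `P = R' ∪ T` has `k + 1` elements.  For `u ∈ T`, all neighbours of `u` in `R`
are in `N ⊆ R'`, so `d_P u ≥ d_T u + d_R u ≥ 2`.  If `P` is not good there is `x ∈ R'` with
`d_(R') x + d_T x ≤ 1`.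
(a) `x ∉ N`.  By SWP all `y ∈ R \ A`, `A = R'.erase x`, have `d_A y ≤ 1`.  `|A| = k - t`,
`|R \ A| = t`, so (`S_le_of_le_one`, `S_le`) `S R ≤ (k - t) (k - t - 1) + t (t - 1) + 2 t`, that is
`2 r ≥ 2 t (k - t - 1)`.  With `2 r ≤ 2 (k - t)` this gives `t (k - t - 1) ≤ k - t`; as `t ≥ 2`,
`k - t ≥ 2` we get `k - t = 2` and `t = 2`, against `k ≥ 16` (if `k - t ≥ 3` then
`t (k - t - 1) ≥ 2 (k - t - 1) > k - t`).
(b) `x ∈ N`: `d_T x = 1`, `d_(R') x = 0`, and `N = {x, a}` with `a ≠ x`, `d_T a = 1`.  The `k - t`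
elements of `R'.erase x` are not adjacent to `x`; as `2 r ≤ 2 (k - t)` these are all the nonadjacent
pairs in `R`: all `p ≠ q` in `R.erase x` are adjacent, and `x` is adjacent to all `y ∈ R \ R'`.
(Counting: `d_R x ≤ k - 1 - (k - t) = t - 1`, and `d_R q ≤ k - 2` for `q ∈ R'.erase x`, `d_R q ≤ k - 1`
for all `q`; if one of these were strict, or if `p, q` as above were not adjacent, then
`S R < k (k - 1) - 2 (k - t)`.)  `R \ R'` has `t - 1 ≥ 1` elements: let `y` be one of them; let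
`z ∈ R'`, `z ≠ x, a` (`|R'| = k + 1 - t ≥ 3`).  `R'' = insert y (R'.erase z)`, `P = R'' ∪ T` has
`k + 1` elements.  `P` is good: `u ∈ T` as before (`N ⊆ R''`); `x` has one neighbour in `T` and `y`;
`q ∈ R''`, `q ≠ x`, is adjacent to the `k - 1 - t` other elements of `R''.erase x`; if
`k - 1 - t ≥ 2` this is enough; if `k - t = 2` then `R'' = {x, a, y}`: `a` has a neighbour in `T` and
`y`; `y` has `a` and `x`. -/
def SpecEAR : Prop :=
  ∀ (V : Type) [DecidableEq V] (X : SimpleGraph V) (R T : Finset V) (k : ℕ), 16 ≤ k →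
    R.card = k → Disjoint R T → 2 ≤ T.card → T.card + 2 ≤ k →
    (∀ u ∈ T, 2 ≤ dg X T u + dg X R u) → ∑ u ∈ T, dg X R u = 2 →
    k * (k - 1) ≤ S X R + 2 * (k - T.card) →
    ∃ P : Finset V, P.card = k + 1 ∧ Good X P

/-- MIN (deps: COR; 100 lines).  Minimal `w`-good sets.
Proof.  Put `t = |T|`.  COR, second part: `S T + 2 ≤ 2 t`.  Summing the condition over `T`:
`S T + w(T) ≥ 2 t`, so `w(T) ≥ 2`, and `t ≥ 2` (if `t = 1`, `S T = 0` and `w(T) ≤ 1`).  Not all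
`v ∈ T` have `d_T v + w v ≥ 3` (else `S T + w(T) ≥ 3 t` and `w(T) ≤ t`, so `S T ≥ 2 t`); let `v` have
`d_T v + w v = 2`.  By COR (first part) for `T.erase v`, where `B = ∅` by hypothesis:
`S (T.erase v) + 2 w(T.erase v) ≤ 2 (t - 1)`, so `S T + 2 w(T) ≤ 2 (t - 1) + 2 (d_T v + w v) =
2 t + 2`.  With `S T + w(T) ≥ 2 t` we get `w(T) ≤ 2`, so `w(T) = 2`, `S T ≥ 2 t - 2`, so equality.
Last claim: let `w u = 1`.  The sum of `d_T v + w v` over `T` is `2 t`, so every term is `2`. -/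
def SpecMIN : Prop :=
  ∀ (V : Type) [DecidableEq V] (X : SimpleGraph V) (w : V → ℕ) (T : Finset V), T.Nonempty →
    (∀ u ∈ T, w u ≤ 1) → WGood X w T → (∀ B ⊆ T, Good X B → B = ∅) →
    (∀ B ⊂ T, WGood X w B → B = ∅) →
    ∑ u ∈ T, w u = 2 ∧ S X T + 2 = 2 * T.card ∧ 2 ≤ T.card ∧ ∀ u ∈ T, dg X T u + w u = 2

/-- REG (deps: COR; 60 lines).  Minimal good sets are cycles.
Proof.  `b = |B| ≥ 3`.  Let `v ∈ B` have the smallest `δ = d_B v`.  COR, second part, for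
`B.erase v`: `S (B.erase v) + 2 ≤ 2 (b - 1)`, so `b δ ≤ S B ≤ 2 (b - 2) + 2 δ`, so
`(b - 2) δ ≤ 2 (b - 2)`, `δ ≤ 2`, and `S B ≤ 2 b`.  As all `d_B x ≥ 2`, all are `2`. -/
def SpecREG : Prop :=
  ∀ (V : Type) [DecidableEq V] (X : SimpleGraph V) (B : Finset V), B.Nonempty → Good X B →
    (∀ B' ⊂ B, Good X B' → B' = ∅) → ∀ x ∈ B, dg X B x = 2

/-- CFL (deps: none; 180 lines).  `D` a tree, the long path `T`.
Here `Bal` is the conclusion: two sets of `k` vertices without isolated vertices.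
Proof.  `t = |T| ∈ {k - 1, k}`.  The `t - 2` elements `u` of `T` with `d_R u = 0` give `σ ≥ t - 2`.
`S D ≤ 2 (k - 1)` (hypothesis `hD`), so `2 r + 2 σ ≤ 2 k - 4`, `r ≤ k - t ≤ 1`, and every vertex of
`R` has `d_R ≥ k - 2 ≥ 1` (otherwise `2 r ≥ 2 (k - 1 - d_R x) > 2`).
If all `u ∈ D` have `d_D u ≥ 1` take `V₁ = D`.  Elements `u ∈ T` have `d_T u ≥ 1`, since
`d_T u + d_R u = 2`, `d_R u ≤ 1`.  So assume `t = k - 1`, `D = insert y T`, `d_D y = 0`.  Then
`S D = S T = 2 (k - 2)`, so `r + σ ≤ k - 3`, so `σ = k - 3`, `r = 0` (`R` is complete: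
`S R = k (k - 1)`), and `d_R y = 1` (as the `k - 3` elements `u ∈ T` with `d_R u = 0` are all the
elements of `D` with this property).  Let `c ∈ R` be adjacent to `y`.
If some `z ∈ R`, `z ≠ c`, has a neighbour in `T`: `V₁ = insert z T`, the rest is
`insert y (R.erase z)`.
Otherwise all neighbours in `R` of elements of `T` are `c`.  Let `u ∈ T` with `d_R u = 1` (there are
two), so `d_T u = 1`; let `u' ∈ T` be its neighbour, and `z ∈ R`, `z ≠ c`.
`V₁ = (T \ {u, u'}) ∪ {c, y, z}` has `k - 3 + 3` elements, the rest is `(R \ {c, z}) ∪ {u, u'}`.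
`x ∈ T \ {u, u'}` is not adjacent to `u`, so `d_(T \ {u, u'}) x ≥ d_T x - 1`; if `d_R x = 0` this is
`≥ 1`; if `d_R x = 1` then `x` is adjacent to `c`.  `c ~ y`, `z ~ c`, `u ~ u'`, and `R \ {c, z}` is
complete with `k - 2 ≥ 2` elements. -/
def SpecCFL : Prop :=
  ∀ (V : Type) [Fintype V] [DecidableEq V] (X : SimpleGraph V) (R D T : Finset V) (k : ℕ), 16 ≤ k →
    R.card = k → D.card = k → Disjoint R D → R ∪ D = univ → (∀ u ∈ D, dg X R u ≤ 1) →
    k * (k - 1) + 2 + 2 * (D.filter fun u => dg X R u = 0).card ≤ S X R + S X D →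
    S X D + 2 ≤ 2 * k → T ⊆ D → k ≤ T.card + 1 → ∑ u ∈ T, dg X R u = 2 →
    S X T + 2 = 2 * T.card → (∀ u ∈ T, dg X T u + dg X R u = 2) →
    ∃ V₁ : Finset V, V₁.card = k ∧ (∀ x ∈ V₁, 1 ≤ dg X V₁ x) ∧ ∀ x ∈ V₁ᶜ, 1 ≤ dg X V₁ᶜ x

/-- CFO (deps: COR, EAR, MIN, CFL; 120 lines).  The case in which `D` has no nonempty good subset.
Proof.  Let `w u = d_R u`, `σ` the number of `u ∈ D` with `w u = 0`, so `w(D) = k - σ`.  By COR,
second part, `S D + 2 ≤ 2 k`.  COR, first part, for `D` and `w`: if `B = ∅` then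
`S D + 2 w(D) ≤ 2 k`, but `S D + 2 w(D) ≥ 2 + 2 r + 2 σ + 2 (k - σ) > 2 k`.  So `D` has a nonempty
`w`-good subset; let `T` be one with the fewest elements, `t = |T|`.  MIN applies to `T`:
`w(T) = 2`, so exactly `t - 2` elements of `T` have `w = 0`, so `σ ≥ t - 2`; and
`2 r + 2 σ + 2 ≤ S D ≤ 2 k - 2`, so `r ≤ k - 2 - σ ≤ k - t`.  If `t + 2 ≤ k`: EAR.  Else CFL. -/
def SpecCFO : Prop :=
  ∀ (V : Type) [Fintype V] [DecidableEq V] (X : SimpleGraph V) (R D : Finset V) (k : ℕ), 16 ≤ k →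
    R.card = k → D.card = k → Disjoint R D → R ∪ D = univ → (∀ u ∈ D, dg X R u ≤ 1) →
    k * (k - 1) + 2 + 2 * (D.filter fun u => dg X R u = 0).card ≤ S X R + S X D →
    (∀ B ⊆ D, Good X B → B = ∅) →
    (∃ P : Finset V, P.card = k + 1 ∧ Good X P) ∨
    ∃ V₁ : Finset V, V₁.card = k ∧ (∀ x ∈ V₁, 1 ≤ dg X V₁ x) ∧ ∀ x ∈ V₁ᶜ, 1 ≤ dg X V₁ᶜ x

/-- NYY (deps: COR; 100 lines).  The vertex outside a long cycle.
Proof.  Suppose `d_B y ≥ 2`.
If all `v ∈ B` are adjacent to `y`: take adjacent `v, v' ∈ B`; `{y, v, v'}` is good with three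
elements, against the hypothesis.  So let `v ∈ B` be not adjacent to `y`, `D = insert y B`,
`D' = D.erase v`, `|D'| = k - 1`.
If `D'` is good: let `v₁ ≠ v₂` be the two neighbours of `v` in `B`.  `d_(D') v_i ≥ 2` and
`d_(B.erase v) v_i = 1`, so `v_i` is adjacent to `y`; so `{y, v₁, v, v₂}` is good with four elements.
If `D'` is not good it has no nonempty good subset (one with at least `k - 1` elements would be
`D'`), so by COR, second part, `S D' + 2 ≤ 2 (k - 1)`, and `S D = S D' + 2 d_D v`, `d_D v = 2`,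
`S D = S B + 2 d_B y = 2 (k - 1) + 2 d_B y`: so `2 (k - 1) + 2 d_B y + 2 ≤ 2 (k - 1) + 4`, so
`d_B y ≤ 1`. -/
def SpecNYY : Prop :=
  ∀ (V : Type) [DecidableEq V] (X : SimpleGraph V) (B : Finset V) (y : V) (k : ℕ), 16 ≤ k →
    B.card + 1 = k → y ∉ B → (∀ x ∈ B, dg X B x = 2) →
    (∀ B' ⊆ insert y B, B'.Nonempty → Good X B' → k - 1 ≤ B'.card) → dg X B y ≤ 1

/-- NAA (deps: none; 200 lines).  A long cycle `B` in `D`, no isolated vertices in `D`.
Proof.  If all `x ∈ R` have `d_R x ≥ 1` take `V₁ = D`.  So let `x ∈ R`, `d_R x = 0`.  Then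
`2 r ≥ 2 (k - 1)`, and `2 r + 2 σ + 2 ≤ S D ≤ 2 k`, so `r = k - 1`, `σ = 0`, and all pairs in
`R.erase x` are adjacent (`S R ≤ S (R.erase x) + 0`, `S (R.erase x) = (k - 1) (k - 2)`; use `S_le`
and a missing pair would lower it).  So every `u ∈ D` has exactly one neighbour in `R`.  Let `M` be
the set of the neighbours of `x` in `D`.
(1) There are adjacent `u, u' ∈ D`, both not in `M`: `P = (R.erase x) ∪ {u, u'}` has `k + 1`
elements and is good (`u` is adjacent to `u'` and to an element of `R.erase x`).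
(2) There are adjacent `u, u' ∈ M`: let `A ⊆ R.erase x`, `|A| = k - 2`; `P = A ∪ {u, u', x}` is
good.
(3) Otherwise adjacent vertices of `D` are one in `M` and one not.  `B` is not empty and
`d_B = 2` on `B`, so there is `v ∈ B ∩ M` (a vertex of `B` or its neighbour in `B`); its two
neighbours in `B` are not in `M`.  `D \ B` has at most one element; if it is `{y}`, `y` has a
neighbour `y₀ ∈ D` (`y₀ ∈ B`); let `u ∈ B` be a neighbour of `v` with `u ≠ y₀` (if `D = B` any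
neighbour of `v`).  `V₁ = insert x (D.erase u)`, the rest is `insert u (R.erase x)`.  Elements of
`B.erase u` have `d_B = 2`, so a neighbour in `B.erase u`; `y ~ y₀`; `x ~ v`; `u` has a neighbour in
`R.erase x` as `u ∉ M`. -/
def SpecNAA : Prop :=
  ∀ (V : Type) [Fintype V] [DecidableEq V] (X : SimpleGraph V) (R D B : Finset V) (k : ℕ),
    16 ≤ k → R.card = k → D.card = k → Disjoint R D → R ∪ D = univ → (∀ u ∈ D, dg X R u ≤ 1) →
    k * (k - 1) + 2 + 2 * (D.filter fun u => dg X R u = 0).card ≤ S X R + S X D →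
    S X D ≤ 2 * k → B ⊆ D → k ≤ B.card + 1 → (∀ x ∈ B, dg X B x = 2) → (∀ u ∈ D, 1 ≤ dg X D u) →
    (∃ P : Finset V, P.card = k + 1 ∧ Good X P) ∨
    ∃ V₁ : Finset V, V₁.card = k ∧ (∀ x ∈ V₁, 1 ≤ dg X V₁ x) ∧ ∀ x ∈ V₁ᶜ, 1 ≤ dg X V₁ᶜ x

/-- NPR (deps: COR, MIN; 100 lines).  A shortest ear in the cycle `B`, `w(B) ≥ 2`.
Proof.  `B` is `w`-good.  Let `T` be a nonempty `w`-good subset of `B` with the fewest elements.
`T ≠ B`: otherwise for all `v ∈ B`, by COR for `B.erase v` (no nonempty `w`-good subset)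
`S (B.erase v) + 2 w(B.erase v) ≤ 2 (b - 1)`, so
`2 b + 2 w(B) = S B + 2 w(B) ≤ 2 (b - 1) + 2 (2 + w v)`, `w(B) ≤ 1 + w v ≤ 2`; with `w(B) ≥ 2` all
`w v = 1`, so `w(B) = b ≥ 3`, a contradiction.  So `T ⊂ B` and `T` has no nonempty good subset
(hypothesis on `B`); MIN applies. -/
def SpecNPR : Prop :=
  ∀ (V : Type) [DecidableEq V] (X : SimpleGraph V) (w : V → ℕ) (B : Finset V), 3 ≤ B.card →
    (∀ u ∈ B, w u ≤ 1) → (∀ x ∈ B, dg X B x = 2) → (∀ B' ⊂ B, Good X B' → B' = ∅) →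
    2 ≤ ∑ u ∈ B, w u →
    ∃ T ⊂ B, ∑ u ∈ T, w u = 2 ∧ 2 ≤ T.card ∧ ∀ u ∈ T, dg X T u + w u = 2

/-- NAL (deps: EAR, NPR; 80 lines).  `D = insert y B`, `y` isolated in `X`.
Proof.  `σ ≥ 1` counts `y`.  `S D = S B = 2 (k - 1)`, so `r + σ + 1 ≤ k - 1`, and
`∑_{u ∈ B} d_R u = k - σ ≥ r + 2 ≥ 2`.  Take `T` from NPR (`w u = d_R u`).  `t - 2` elements of
`T ⊆ B` have `d_R = 0`, and `y` too, so `σ ≥ t - 1`, `r ≤ k - 1 - t`.  `t ≤ |B| - 1 = k - 2`.
EAR. -/
def SpecNAL : Prop :=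
  ∀ (V : Type) [DecidableEq V] (X : SimpleGraph V) (R B : Finset V) (y : V) (k : ℕ), 16 ≤ k →
    R.card = k → B.card + 1 = k → y ∉ B → Disjoint R (insert y B) →
    (∀ u ∈ B, dg X R u ≤ 1) → (∀ x ∈ B, dg X B x = 2) → (∀ B' ⊂ B, Good X B' → B' = ∅) →
    dg X B y = 0 → dg X R y = 0 →
    k * (k - 1) + 2 + 2 * ((insert y B).filter fun u => dg X R u = 0).card ≤
      S X R + S X (insert y B) →
    ∃ P : Finset V, P.card = k + 1 ∧ Good X P

/-- NBB (deps: EAR, NPR; 200 lines).  `D = insert y B`, `y` isolated in `D`, `y ~ c ∈ R`, and all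
neighbours in `R` of elements of `B` are `c`.
Proof.  `S D = S B = 2 (k - 1)`; `σ` counts elements of `B` only, so `w(B) = k - 1 - σ`
(`w u = d_R u`), `r + σ ≤ k - 2`, so `w(B) ≥ r + 1 ≥ 1`.
(1) `w(B) ≥ 2`: `T` from NPR, `t - 2 ≤ σ`, so `r ≤ k - 2 - σ ≤ k - t`, `t ≤ k - 2`: EAR gives `P`.
(2) `w(B) = 1`: `σ = k - 2`, `r = 0`, `R` is complete.  Let `u, u' ∈ B` be adjacent, `z ∈ R`,
`z ≠ c`.  `V₁ = (B \ {u, u'}) ∪ {c, y, z}` has `k - 3 + 3` elements, the rest is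
`(R \ {c, z}) ∪ {u, u'}`.  `x ∈ B \ {u, u'}` is not adjacent to both `u` and `u'` (else `{x, u, u'}`
is a proper nonempty good subset of `B`), so it keeps a neighbour; `c ~ y`, `z ~ c`, `u ~ u'`,
`R \ {c, z}` is complete with at least two elements. -/
def SpecNBB : Prop :=
  ∀ (V : Type) [Fintype V] [DecidableEq V] (X : SimpleGraph V) (R B : Finset V) (y c : V) (k : ℕ),
    16 ≤ k → R.card = k → B.card + 1 = k → y ∉ B → Disjoint R (insert y B) →
    R ∪ insert y B = univ → (∀ u ∈ insert y B, dg X R u ≤ 1) → (∀ x ∈ B, dg X B x = 2) →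
    (∀ B' ⊂ B, Good X B' → B' = ∅) → dg X B y = 0 → c ∈ R → X.Adj y c →
    (∀ z ∈ R, z ≠ c → dg X B z = 0) →
    k * (k - 1) + 2 + 2 * ((insert y B).filter fun u => dg X R u = 0).card ≤
      S X R + S X (insert y B) →
    (∃ P : Finset V, P.card = k + 1 ∧ Good X P) ∨
    ∃ V₁ : Finset V, V₁.card = k ∧ (∀ x ∈ V₁, 1 ≤ dg X V₁ x) ∧ ∀ x ∈ V₁ᶜ, 1 ≤ dg X V₁ᶜ x

/-- NBC (deps: none; 250 lines).  `D = insert y B`, `y` isolated in `D`, `y ~ c ∈ R`, and some
`z ∈ R`, `z ≠ c`, has a neighbour in `B`.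
Proof.  `S D = S B = 2 (k - 1)`, `r + σ ≤ k - 2`.
(1) If for some such `z` all `x ∈ R.erase z` have `d_(R.erase z) x ≥ 1`: `V₁ = insert z B`, the rest
is `insert y (R.erase z)`, and `y ~ c ∈ R.erase z`.
(2) Otherwise let `z` be one and `x₀ ∈ R.erase z` with `d_(R.erase z) x₀ = 0`.  So `d_R x₀ ≤ 1`,
`2 r ≥ 2 (k - 1 - d_R x₀)` gives `d_R x₀ = 1`, `x₀ ~ z`, `r = k - 2`, `σ = 0`, and all pairs in
`R.erase x₀` are adjacent.  If `z' ∈ R`, `z' ≠ c`, `z' ≠ z`, has a neighbour in `B`, then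
`R.erase z'` has no isolated vertices (`x₀ ~ z` if `x₀ ≠ z'`, and `R \ {x₀, z'}` is complete with
at least two elements; if `z' = x₀` clear): this is case (1).  So all neighbours in `R` of elements
of `B` are in `{c, z}`, and every `u ∈ B` has exactly one (`σ = 0`).  Take adjacent `u, u' ∈ B` with
neighbours `a, a' ∈ {c, z}` in `R`.
(2a) `x₀ ≠ a, a'`: `P = (R.erase x₀) ∪ {u, u'}` is good with `k + 1` elements.
(2b) So `x₀ = c` (`x₀ ≠ z`).  If `a = a' = x₀`: let `A ⊆ R.erase x₀`, `|A| = k - 2`;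
`P = A ∪ {u, u', x₀}`.  If `{a, a'} = {x₀, z}`: let `q ∈ R \ {x₀, z}`; `P = (R.erase q) ∪ {u, u'}`:
`x₀` is adjacent to `z` and to one of `u, u'`; `z` and the other elements of `R \ {x₀, q}`, a
complete set of `k - 2` elements, are fine; `u` is adjacent to `u'` and `a`. -/
def SpecNBC : Prop :=
  ∀ (V : Type) [Fintype V] [DecidableEq V] (X : SimpleGraph V) (R B : Finset V) (y c : V) (k : ℕ),
    16 ≤ k → R.card = k → B.card + 1 = k → y ∉ B → Disjoint R (insert y B) →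
    R ∪ insert y B = univ → (∀ u ∈ insert y B, dg X R u ≤ 1) → (∀ x ∈ B, dg X B x = 2) →
    dg X B y = 0 → c ∈ R → X.Adj y c → (∃ z ∈ R, z ≠ c ∧ 1 ≤ dg X B z) →
    k * (k - 1) + 2 + 2 * ((insert y B).filter fun u => dg X R u = 0).card ≤
      S X R + S X (insert y B) →
    (∃ P : Finset V, P.card = k + 1 ∧ Good X P) ∨
    ∃ V₁ : Finset V, V₁.card = k ∧ (∀ x ∈ V₁, 1 ≤ dg X V₁ x) ∧ ∀ x ∈ V₁ᶜ, 1 ≤ dg X V₁ᶜ x

/-- NTW (deps: REG, NYY, NAA, NAL, NBB, NBC; 120 lines).  The case in which `D` has a nonempty good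
subset, and all of them have at least `k - 1` elements.
Proof.  Let `B` be a nonempty good subset of `D` with the fewest elements; `|B| ∈ {k - 1, k}`; a
proper good subset of `B` is empty.  By REG `d_B = 2` on `B`, so `S B = 2 |B|`.  If `|B| = k` then
`D = B`, `S D = 2 k`: NAA.  Else `D = insert y B`, `d_B y ≤ 1` by NYY, and
`S D = 2 (k - 1) + 2 d_B y`.  If `d_B y = 1`: NAA (`d_D u ≥ 1` for all `u ∈ D`).  If `d_B y = 0`: if
`d_R y = 0` NAL.  Else `y ~ c` for some `c ∈ R`, and NBB or NBC applies. -/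
def SpecNTW : Prop :=
  ∀ (V : Type) [Fintype V] [DecidableEq V] (X : SimpleGraph V) (R D : Finset V) (k : ℕ), 16 ≤ k →
    R.card = k → D.card = k → Disjoint R D → R ∪ D = univ → (∀ u ∈ D, dg X R u ≤ 1) →
    k * (k - 1) + 2 + 2 * (D.filter fun u => dg X R u = 0).card ≤ S X R + S X D →
    (∀ B ⊆ D, B.Nonempty → Good X B → k - 1 ≤ B.card) → (∃ B ⊆ D, B.Nonempty ∧ Good X B) →
    (∃ P : Finset V, P.card = k + 1 ∧ Good X P) ∨
    ∃ V₁ : Finset V, V₁.card = k ∧ (∀ x ∈ V₁, 1 ≤ dg X V₁ x) ∧ ∀ x ∈ V₁ᶜ, 1 ≤ dg X V₁ᶜ x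

/-- FIN (deps: SWP, NMC, CFO, NTW; 100 lines).  The theorem for `k ≥ 16`.
Proof.  Suppose that no set of `k + 1` vertices is good.  Let `P` be the set of SWP for `A = univ`,
`F = ∅`, `s = k + 1`; some `v ∈ P` has `d_P v ≤ 1`; put `R = P.erase v`, `D = Rᶜ`.  By SWP
`d_R u ≤ 1` for all `u ∈ D`.  `S univ = S R + S D + 2 ∑_{u ∈ D} d_R u` (`S_union`) and the sum is
`k - σ`, so `S R + S D ≥ k (k + 1) + 2 - 2 k + 2 σ = k (k - 1) + 2 + 2 σ`.  For `x ∈ R`,
`S D ≤ S (insert x D) ≤ S P = S R + 2 d_P v ≤ S R + 2` (maximality of `S P`).  If `D` has no nonempty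
good subset: CFO.  Else NMC and NTW. -/
def SpecFIN : Prop :=
  ∀ (V : Type) [Fintype V] [DecidableEq V] (X : SimpleGraph V) (k : ℕ), 16 ≤ k →
    Fintype.card V = 2 * k → k * (k + 1) + 2 ≤ S X univ →
    (∃ P : Finset V, P.card = k + 1 ∧ Good X P) ∨
    ∃ V₁ : Finset V, V₁.card = k ∧ (∀ x ∈ V₁, 1 ≤ dg X V₁ x) ∧ ∀ x ∈ V₁ᶜ, 1 ≤ dg X V₁ᶜ x

/-- TRA (deps: FIN; 150 lines).  Translation.
Proof.  `X = Gᶜ`, `k = n + 1`.  `S G univ = 2 |E(G)|` (`SimpleGraph.sum_degrees_eq_twice_card_edges`)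
and `d_univ^G x + d_univ^X x = 2 n + 1`, so `S X univ = (2n + 2) (2n + 1) - 2 |E(G)| ≥ (n + 1) (n + 2)
+ 2` since `2 (C(2n+1, 2) - C(n, 2) - 1) = (2n + 1) 2 n - n (n - 1) - 2`.  Let `B` be the graph of
the edges of `G` between `V₁` and its complement (`V₁ = P` in the first case of FIN) and `D` the
graph of the other edges of `G`.  For `x ∈ P`: the neighbours of `x` in `D` are its neighbours in
`G` in `P`, at most `|P| - 1 - d_P^X x ≤ n + 1 - 2` many; for `x ∉ P`: at most `|Pᶜ| - 1 = n - 1`.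
In the second case both parts have `n + 1` elements and every `x` has at most `n + 1 - 1 - 1`. -/
def SpecTRA : Prop :=
  ∀ n : ℕ, 15 ≤ n → ∀ G : SimpleGraph (Fin (2 * n + 2)),
    G.edgeSet.ncard ≤ (2 * n + 1).choose 2 - n.choose 2 - 1 →
    ∃ B D : SimpleGraph (Fin (2 * n + 2)), B.Colorable 2 ∧
      (∀ v, (D.neighborSet v).ncard ≤ n - 1) ∧ G = B ⊔ D

end Pool.Agent.Lib.MP270b6b.PT
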