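import Pool.Agent.Lib.MP_270b6b_co.PT.Spec

/-!
# Module TRA: the translation to the graph of the problem
-/

set_option autoImplicit false

open Finset

namespace Pool.Agent.Lib.MP270b6b.PT

namespace TRAM

variable {V : Type} [DecidableEq V]

/-- the neighbours and the non-neighbours inside `A` -/
theorem dg_add_compl (G : SimpleGraph V) (A : Finset V) {x : V} (hx : x ∈ A) :
    dg G A x + dg Gᶜ A x + 1 = A.card := by
  classical
  rw [← dg_erase_self A x, ← dg_erase_self (X := Gᶜ) A x, ← card_erase_add_one hx]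
  congr 1
  rw [dg, dg, ← card_filter_add_card_filter_not (s := A.erase x) (fun y => G.Adj x y)]
  refine congrArg₂ (· + ·) ?_ ?_
  · congr 1
  · congr 1
    ext y
    simp only [mem_filter]
    constructor
    · rintro ⟨hy, h⟩
      exact ⟨hy, ((SimpleGraph.compl_adj _ _ _).1 h).2⟩
    · rintro ⟨hy, h⟩
      exact ⟨hy, (SimpleGraph.compl_adj _ _ _).2 ⟨(ne_of_mem_erase hy).symm, h⟩⟩

theorem two_mul_choose (m : ℕ) : 2 * m.choose 2 = m * (m - 1) := by
  rw [Nat.choose_two_right]
  exact Nat.mul_div_cancel' (Nat.even_mul_pred_self m).two_dvd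

variable [Fintype V]

theorem sum_dg (G : SimpleGraph V) : S G univ = 2 * G.edgeSet.ncard := by
  classical
  have h1 := G.sum_degrees_eq_twice_card_edges
  have h2 : G.edgeSet.ncard = G.edgeFinset.card := by
    rw [Set.ncard_eq_toFinset_card']
    rfl
  rw [h2, ← h1, S]
  refine sum_congr rfl fun x _ => ?_
  rw [dg, ← SimpleGraph.card_neighborFinset_eq_degree]
  congr 1
  ext y
  simp

/-- the graph of the edges inside `P` and inside the complement -/
def inner (G : SimpleGraph V) (P : Finset V) : SimpleGraph V where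
  Adj u v := G.Adj u v ∧ (u ∈ P ↔ v ∈ P)
  symm := ⟨fun _ _ h => ⟨h.1.symm, h.2.symm⟩⟩
  loopless := ⟨fun _ h => G.loopless.irrefl _ h.1⟩

/-- the graph of the edges between `P` and the complement -/
def cross (G : SimpleGraph V) (P : Finset V) : SimpleGraph V where
  Adj u v := G.Adj u v ∧ ¬ (u ∈ P ↔ v ∈ P)
  symm := ⟨fun _ _ h => ⟨h.1.symm, fun h' => h.2 h'.symm⟩⟩
  loopless := ⟨fun _ h => G.loopless.irrefl _ h.1⟩

theorem eq_sup (G : SimpleGraph V) (P : Finset V) : G = cross G P ⊔ inner G P := by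
  ext u v
  rw [SimpleGraph.sup_adj]
  constructor
  · intro h
    by_cases h1 : u ∈ P ↔ v ∈ P
    · exact Or.inr ⟨h, h1⟩
    · exact Or.inl ⟨h, h1⟩
  · rintro (h | h)
    · exact h.1
    · exact h.1

theorem colorable (G : SimpleGraph V) (P : Finset V) : (cross G P).Colorable 2 := by
  refine ⟨SimpleGraph.Coloring.mk (fun v => if v ∈ P then 0 else 1) ?_⟩
  intro u v h heq
  apply h.2
  by_cases hu : u ∈ P <;> by_cases hv : v ∈ P <;> simp_all

theorem inner_le (G : SimpleGraph V) (P A : Finset V) (x : V) (hx : x ∈ A)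
    (hA : ∀ v, (x ∈ P ↔ v ∈ P) → v ∈ A) :
    ((inner G P).neighborSet x).ncard + dg Gᶜ A x + 1 ≤ A.card := by
  classical
  have h1 : (inner G P).neighborSet x ⊆ ↑(A.filter fun y => G.Adj x y) := by
    intro y hy
    have hy' : G.Adj x y ∧ (x ∈ P ↔ y ∈ P) := hy
    exact mem_coe.2 (mem_filter.2 ⟨hA y hy'.2, hy'.1⟩)
  have h2 : ((inner G P).neighborSet x).ncard ≤ dg G A x := by
    refine (Set.ncard_le_ncard h1 (finite_toSet _)).trans (le_of_eq ?_)
    rw [Set.ncard_coe_finset, dg]
  have h3 := dg_add_compl G A hx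
  omega

end TRAM

open TRAM in
theorem specTRA (hFIN : SpecFIN) : SpecTRA := by
  classical
  intro n hn G hE
  have h1 : ∀ x : Fin (2 * n + 2), dg G univ x + dg Gᶜ univ x + 1 = 2 * n + 2 := by
    intro x
    rw [dg_add_compl G univ (mem_univ x), card_univ, Fintype.card_fin]
  have h2 : S G univ + S Gᶜ univ = (2 * n + 2) * (2 * n + 1) := by
    rw [S, S, ← sum_add_distrib]
    have h3 : ∀ x ∈ (univ : Finset (Fin (2 * n + 2))), dg G univ x + dg Gᶜ univ x = 2 * n + 1 := by
      intro x _
      have := h1 x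
      omega
    rw [sum_congr rfl h3, sum_const, card_univ, Fintype.card_fin, smul_eq_mul]
  have h3 := sum_dg G
  have h4 := two_mul_choose (2 * n + 1)
  have h5 := two_mul_choose n
  have h6 : 2 * G.edgeSet.ncard ≤ 2 * (2 * n + 1).choose 2 - 2 * n.choose 2 - 2 := by omega
  have hX : (n + 1) * (n + 1 + 1) + 2 ≤ S Gᶜ univ := by
    obtain ⟨m, rfl⟩ : ∃ m, n = m + 1 := ⟨n - 1, by omega⟩
    simp only [Nat.add_sub_cancel] at h4 h5
    have e1 : (m + 1) * m + 2 + 2 * G.edgeSet.ncard ≤ (2 * (m + 1) + 1) * (2 * (m + 1)) := by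
      have e2 : (m + 1) * m + 2 ≤ (2 * (m + 1) + 1) * (2 * (m + 1)) := by nlinarith
      omega
    nlinarith
  have hcard : Fintype.card (Fin (2 * n + 2)) = 2 * (n + 1) := by
    rw [Fintype.card_fin]
    ring
  have hcardu : (univ : Finset (Fin (2 * n + 2))).card = 2 * n + 2 := by
    rw [card_univ, Fintype.card_fin]
  rcases hFIN (Fin (2 * n + 2)) Gᶜ (n + 1) (by omega) hcard hX with ⟨P, hP, hgood⟩ | ⟨P, hP, hin, hout⟩
  · refine ⟨cross G P, inner G P, colorable G P, fun v => ?_, eq_sup G P⟩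
    by_cases hv : v ∈ P
    · have e1 := inner_le G P P v hv fun u hu => hu.1 hv
      have e2 := hgood v hv
      omega
    · have e1 := inner_le G P Pᶜ v (mem_compl.2 hv) fun u hu => mem_compl.2 fun h => hv (hu.2 h)
      have e2 : Pᶜ.card = 2 * n + 2 - P.card := by
        rw [card_compl, Fintype.card_fin]
      omega
  · refine ⟨cross G P, inner G P, colorable G P, fun v => ?_, eq_sup G P⟩
    by_cases hv : v ∈ P
    · have e1 := inner_le G P P v hv fun u hu => hu.1 hv
      have e2 := hin v hv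
      omega
    · have e1 := inner_le G P Pᶜ v (mem_compl.2 hv) fun u hu => mem_compl.2 fun h => hv (hu.2 h)
      have e2 : Pᶜ.card = 2 * n + 2 - P.card := by
        rw [card_compl, Fintype.card_fin]
      have e3 := hout v (mem_compl.2 hv)
      omega

end Pool.Agent.Lib.MP270b6b.PT
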